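import Pool.Agent.K3h53.UG.Fin11
import Pool.Agent.Y563.SE.Main

/-!
# Axiom (SEAC) (i) in the complex exponential field: varieties over hypersurfaces

`G_n = ℂ^n × (ℂ^*)^n`; its elements are functions on `Fin n ⊕ Fin n` (`Sum.inl`: the coordinates
`x`, `Sum.inr`: the coordinates `y`).  The exponential points are the points `(z, e^z)`.

Let `V ⊆ G_n` be an irreducible variety of dimension at least `n`, and let the Zariski closure of its
projection to `ℂ^n` be a hypersurface `X`.

(A) `X` is an arbitrary irreducible hypersurface `F = 0` such that for every nonzero rational vector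
`u` the leading form `q` of `F` has a zero `z` with imaginary part `u` at which the derivative of `q`
in the direction `u` is not zero (`ImaginaryParts q`).

(B) `X` is the graph `x_m = q(x_i, i ≠ m)` of a polynomial `q` of degree at least `2` whose leading form
is not degenerate in a rational direction (`NoFlatDirection q`), `dim V = n`, and the coordinates
`x_i`, `i ≠ m`, and some `y_k`, `k ≠ m`, are algebraically independent on `V`.

In both cases every translate `c V` contains exponential points, and they are Zariski dense in `c V`.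
If `dim V = n` and `V` is defined over a countable field `K` then on almost all translates `c V` they
are generic: they have transcendence degree `n = dim V` over `K(c)`, and they are Zariski dense.  So
(SEAC) (i), with the genericity, holds in `(ℂ, exp)` for almost all translates of `V`.

(C) The condition of (A) holds for all `F` with the leading form `∑ a_i x_i ^ d`, `a_i ≠ 0`, if `n ≥ 2`
and `d ≥ 3`, or if `n ≥ 2`, `d = 2` and the `a_i` are positive numbers.  The condition of (B) holds for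
all `q` with the leading form `∑ a_i x_i ^ d`, `a_i ≠ 0`, `d ≥ 3`.

The hypotheses of (A) concern the projection `X` of `V` to `ℂ^n` only: nothing is supposed about the
fibres of `V` over `X` but their dimension.  `X = ℂ^n` is the theorem of Brownawell and Masser, and
the case `n = 2` is due to Mantova and Masser.  The starting hand-ins
on this problem need that the projection of `V` to `(ℂ^*)^n` is a curve, or that `X` contains a linear
space of its dimension in general position at infinity; the leading forms in (C) do not contain such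
linear spaces if `n ≥ 3`.

The proof is the project `UG` (`Pool.Agent.K3h53.UG`, with parts in other folders) of the starting
library, where these theorems were proved and not handed in: near a point `R ζ`, `R → ∞`, `ζ` a zero
of the leading form with a suitable real part, `X` is a graph over the coordinates `l_j = x_j - u_j θ`,
the equations of `V` determine a branch of `y` as a function of `l` whose logarithms are linear
functions of `θ` with rational coefficients `u_j` up to `O(log R)`, and the equations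
`x_j = log y_j + 2 π i N_j` are solved by a fixed point argument near a purely imaginary centre.  The
genericity is the theorem (A) of the starting hand-in `CurvesInTheTorus`.
-/

set_option autoImplicit false

open MvPolynomial MeasureTheory

namespace Pool.Agent.Results.MP_209724_lc.HypersurfaceBases

/-- `V` is the set of points of `G_n = ℂ^n × (ℂ^*)^n` on which the prime ideal `P` vanishes: an
irreducible subvariety. -/
structure IsVariety {n : ℕ} (P : Ideal (MvPolynomial (Fin n ⊕ Fin n) ℂ))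
    (V : Set (Fin n ⊕ Fin n → ℂ)) : Prop where
  prime : P.IsPrime
  points : V = {p | (∀ f ∈ P, eval p f = 0) ∧ ∀ j : Fin n, p (Sum.inr j) ≠ 0}
  nonempty : V.Nonempty

/-- the coordinates with index in `J` are algebraically independent on `V` -/
def Indep {n : ℕ} (V : Set (Fin n ⊕ Fin n → ℂ)) (J : Finset (Fin n ⊕ Fin n)) : Prop :=
  ∀ f : MvPolynomial (Fin n ⊕ Fin n) ℂ, f.vars ⊆ J → (∀ p ∈ V, eval p f = 0) → f = 0

/-- `dim V = d`: the largest number of algebraically independent coordinates is `d` -/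
def HasDim {n : ℕ} (V : Set (Fin n ⊕ Fin n → ℂ)) (d : ℕ) : Prop :=
  (∃ J, J.card = d ∧ Indep V J) ∧ ∀ J, J.card = d + 1 → ¬ Indep V J

/-- the Zariski closure of the projection of `V` to `ℂ^n` is the hypersurface `F = 0`, and `F` is
irreducible: the polynomials in `x` which vanish on `V` are the multiples of `F` -/
def OverHypersurface {n : ℕ} (V : Set (Fin n ⊕ Fin n → ℂ)) (F : MvPolynomial (Fin n) ℂ) : Prop :=
  ∀ G : MvPolynomial (Fin n) ℂ, (∀ p ∈ V, eval (fun i => p (Sum.inl i)) G = 0) ↔ F ∣ G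

/-- `V` lies over the graph `x_m = q(x_i, i ≠ m)` (the coordinates `x_i`, `i ≠ m`, in their order) -/
def OverGraph {s : ℕ} (V : Set (Fin (s + 1) ⊕ Fin (s + 1) → ℂ)) (m : Fin (s + 1))
    (q : MvPolynomial (Fin s) ℂ) : Prop :=
  ∀ p ∈ V, p (Sum.inl m) = eval (fun a => p (Sum.inl (m.succAbove a))) q

/-- the leading form of a polynomial -/
noncomputable def leading {n : ℕ} (q : MvPolynomial (Fin n) ℂ) : MvPolynomial (Fin n) ℂ :=
  homogeneousComponent q.totalDegree q

/-- the derivative of `q` in the direction `u` -/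
noncomputable def deriv {n : ℕ} (u : Fin n → ℚ) (q : MvPolynomial (Fin n) ℂ) :
    MvPolynomial (Fin n) ℂ :=
  ∑ j, C ((u j : ℚ) : ℂ) * pderiv j q

/-- for every nonzero rational vector `u` the form `q` has a zero with imaginary part `u` at which
the derivative in the direction `u` does not vanish -/
def ImaginaryParts {n : ℕ} (q : MvPolynomial (Fin n) ℂ) : Prop :=
  ∀ u : Fin n → ℚ, u ≠ 0 → ∃ z : Fin n → ℂ, (∀ i, (z i).im = (u i : ℝ)) ∧ eval z q = 0 ∧
    eval z (deriv u q) ≠ 0

/-- for every nonzero rational vector `u` the derivative of the leading form `t` of `q` in the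
direction `u` is not zero, and the second derivative is not zero or `i^(d-1) t`, `d` the degree, has
a coefficient which is not real -/
def NoFlatDirection {s : ℕ} (q : MvPolynomial (Fin s) ℂ) : Prop :=
  ∀ u : Fin s → ℚ, u ≠ 0 → deriv u (leading q) ≠ 0 ∧
    (deriv u (deriv u (leading q)) ≠ 0 ∨
      ∃ m, (Complex.I ^ (q.totalDegree - 1) * coeff m (leading q)).im ≠ 0)

/-- the translate `c V` -/
def Translate {n : ℕ} (c : Fin n ⊕ Fin n → ℂ) (V : Set (Fin n ⊕ Fin n → ℂ)) :
    Set (Fin n ⊕ Fin n → ℂ) :=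
  {p | ∃ u ∈ V, p = Sum.elim (fun i => u (Sum.inl i) + c (Sum.inl i))
    (fun i => c (Sum.inr i) * u (Sum.inr i))}

/-- the exponential point `(z, e^z)` -/
noncomputable def ExpPoint {n : ℕ} (z : Fin n → ℂ) : Fin n ⊕ Fin n → ℂ :=
  Sum.elim z (fun i => Complex.exp (z i))

/-- `tr.deg_{K(c)} K(c)(z, e^z)` -/
noncomputable def trdegOver {n : ℕ} (K : Subfield ℂ) (c : Fin n ⊕ Fin n → ℂ) (z : Fin n → ℂ) :
    Cardinal :=
  Algebra.trdeg (IntermediateField.adjoin K (Set.range c))
    (IntermediateField.adjoin (IntermediateField.adjoin K (Set.range c)) (Set.range (ExpPoint z)))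

/-- every translate `c V` contains exponential points, also outside of any hypersurface `H = 0` which
does not contain `c V` -/
def DenseOnTranslates {n : ℕ} (V : Set (Fin n ⊕ Fin n → ℂ)) : Prop :=
  ∀ c : Fin n ⊕ Fin n → ℂ, (∀ i, c (Sum.inr i) ≠ 0) →
    ∀ H : MvPolynomial (Fin n ⊕ Fin n) ℂ, (∃ p ∈ Translate c V, eval p H ≠ 0) →
    ∃ z : Fin n → ℂ, ExpPoint z ∈ Translate c V ∧ eval (ExpPoint z) H ≠ 0

/-- if `P` is defined over the countable field `K` then for almost all `c` there are exponential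
points on `c V` which have transcendence degree `n` over `K(c)`, also outside of any hypersurface
`H = 0` which does not contain `c V` -/
def GenericOnTranslates {n : ℕ} (P : Ideal (MvPolynomial (Fin n ⊕ Fin n) ℂ))
    (V : Set (Fin n ⊕ Fin n → ℂ)) : Prop :=
  ∀ (K : Subfield ℂ) [Countable K], (∃ S : Set (MvPolynomial (Fin n ⊕ Fin n) K),
      P = Ideal.span (MvPolynomial.map (algebraMap K ℂ) '' S)) →
    ∀ᵐ c : Fin n ⊕ Fin n → ℂ, (∀ i, c (Sum.inr i) ≠ 0) ∧
      ∀ H : MvPolynomial (Fin n ⊕ Fin n) ℂ, (∃ p ∈ Translate c V, eval p H ≠ 0) →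
      ∃ z : Fin n → ℂ, ExpPoint z ∈ Translate c V ∧ eval (ExpPoint z) H ≠ 0 ∧
        trdegOver K c z = n

theorem generic_of_dense {n : ℕ} (P : Ideal (MvPolynomial (Fin n ⊕ Fin n) ℂ))
    (V : Set (Fin n ⊕ Fin n → ℂ)) (hV : IsVariety P V) (hd : ∀ J, J.card = n + 1 → ¬ Indep V J)
    (hA : DenseOnTranslates V) : GenericOnTranslates P V := by
  intro K _ ⟨S, hS⟩
  have hgen := Pool.Agent.Y563.SE.generic_pts P V hV.prime hV.points hV.nonempty (by
    intro J hJ
    have h1 := hd J hJ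
    unfold Indep at h1
    push Not at h1
    obtain ⟨f, h2, h3, h4⟩ := h1
    exact ⟨f, h4, h2, h3⟩) K S hS
  have hne : ∀ᵐ c : Fin n ⊕ Fin n → ℂ, ∀ i : Fin n, c (Sum.inr i) ≠ 0 := by
    rw [ae_all_iff]
    intro i
    have h1 : (volume : Measure (Fin n ⊕ Fin n → ℂ)) {c | c (Sum.inr i) = 0} = 0 := by
      have h2 : {c : Fin n ⊕ Fin n → ℂ | c (Sum.inr i) = 0} =
          (LinearMap.ker (LinearMap.proj (R := ℝ) (φ := fun _ : Fin n ⊕ Fin n => ℂ)
            (Sum.inr i)) : Set (Fin n ⊕ Fin n → ℂ)) := by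
        ext c
        simp
      rw [h2]
      refine Measure.addHaar_submodule _ _ fun h => ?_
      have h3 : (fun _ => (1 : ℂ) : Fin n ⊕ Fin n → ℂ) ∈
          LinearMap.ker (LinearMap.proj (R := ℝ) (φ := fun _ : Fin n ⊕ Fin n => ℂ)
            (Sum.inr i)) := by
        rw [h]
        trivial
      simp at h3
    rw [ae_iff]
    simpa using h1
  filter_upwards [hgen, hne] with c hc hc'
  refine ⟨hc', fun H hH => ?_⟩
  obtain ⟨z, hz, hz'⟩ := hA c hc' H hH
  exact ⟨z, hz, hz', hc z hz⟩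

theorem deriv_eq {n : ℕ} (u : Fin n → ℚ) (q : MvPolynomial (Fin n) ℂ) :
    Pool.Agent.K3h53.UG.dd (fun j => (((u j : ℚ) : ℝ) : ℂ)) q = deriv u q := by
  unfold Pool.Agent.K3h53.UG.dd deriv
  refine Finset.sum_congr rfl fun j _ => ?_
  norm_cast

theorem nonReal_of_imaginaryParts {n : ℕ} (q : MvPolynomial (Fin n) ℂ) (h : ImaginaryParts q)
    (u : Fin n → ℚ) (hu : u ≠ 0) :
    Pool.Agent.K3h53.UG.NonRealAt q fun i => (u i : ℝ) := by
  obtain ⟨z, h1, h2, h3⟩ := h u hu
  have hz : (fun i => (((z i).re : ℝ) : ℂ) + (((u i : ℝ) : ℝ) : ℂ) * Complex.I) = z := by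
    funext i
    apply Complex.ext
    · simp
    · simp [h1 i]
  refine ⟨fun i => (z i).re, Complex.I, by simp, ?_, ?_⟩
  · rw [hz]
    exact h2
  · rw [hz, deriv_eq]
    exact h3


theorem pderiv_diag {n : ℕ} (a : Fin n → ℂ) (d : ℕ) (j : Fin n) :
    pderiv j (∑ i, C (a i) * X i ^ d : MvPolynomial (Fin n) ℂ) = C (a j * d) * X j ^ (d - 1) := by
  classical
  rw [map_sum, Finset.sum_eq_single j]
  · rw [Derivation.leibniz, Derivation.leibniz_pow]
    simp only [pderiv_C, pderiv_X_self, smul_eq_mul, mul_one, nsmul_eq_mul, C_mul]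
    rw [mul_assoc]
    simp
  · intro i _ hi
    rw [Derivation.leibniz, Derivation.leibniz_pow]
    simp [pderiv_X_of_ne hi]
  · simp

theorem deriv_diag {n : ℕ} (a : Fin n → ℂ) (d : ℕ) (u : Fin n → ℚ) :
    deriv u (∑ i, C (a i) * X i ^ d : MvPolynomial (Fin n) ℂ) =
      ∑ i, C (((u i : ℚ) : ℂ) * (a i * d)) * X i ^ (d - 1) := by
  unfold deriv
  refine Finset.sum_congr rfl fun j _ => ?_
  rw [pderiv_diag, C_mul (a := ((u j : ℚ) : ℂ)), mul_assoc]

theorem diag_zero {n d : ℕ} (hd : 1 ≤ d) (a : Fin n → ℂ) (u : Fin n → ℚ) (k : Fin n)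
    (ha : a k ≠ 0) (w : ℂ) (hw : w.im ≠ 0)
    (h0 : a k * w ^ d + ∑ i ∈ Finset.univ.erase k, a i * ((u i : ℚ) : ℂ) ^ d = 0) :
    ∃ z : Fin n → ℂ, (∀ i, (z i).im = (u i : ℝ)) ∧
      eval z (∑ i, C (a i) * X i ^ d : MvPolynomial (Fin n) ℂ) = 0 ∧
      eval z (deriv u (∑ i, C (a i) * X i ^ d : MvPolynomial (Fin n) ℂ)) ≠ 0 := by
  classical
  have hwk : w - ((u k : ℚ) : ℂ) ≠ 0 := by
    intro h
    have h1 := congrArg Complex.im h
    simp at h1
    exact hw h1
  obtain ⟨η, hη⟩ : ∃ η, η = (w - ((u k : ℚ) : ℂ))⁻¹ := ⟨_, rfl⟩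
  have hη0 : η ≠ 0 := by rw [hη]; exact inv_ne_zero hwk
  have hηim : η.im ≠ 0 := by
    rw [hη, Complex.inv_im]
    have h1 : (w - ((u k : ℚ) : ℂ)).im = w.im := by simp
    rw [h1]
    exact div_ne_zero (neg_ne_zero.2 hw) ((Complex.normSq_pos.2 hwk).ne')
  obtain ⟨τ, hτ⟩ : ∃ τ : ℂ, τ = η * ((η.im⁻¹ : ℝ) : ℂ) := ⟨_, rfl⟩
  have hτim : τ.im = 1 := by
    rw [hτ, Complex.im_mul_ofReal]
    exact mul_inv_cancel₀ hηim
  have hτ0 : τ ≠ 0 := by
    intro h
    rw [h] at hτim
    simp at hτim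
  have hτw : τ * w = ((η.im⁻¹ : ℝ) : ℂ) + τ * ((u k : ℚ) : ℂ) := by
    have h1 : η * (w - ((u k : ℚ) : ℂ)) = 1 := by rw [hη]; exact inv_mul_cancel₀ hwk
    have h2 : τ * (w - ((u k : ℚ) : ℂ)) = ((η.im⁻¹ : ℝ) : ℂ) := by
      rw [hτ]
      linear_combination ((η.im⁻¹ : ℝ) : ℂ) * h1
    linear_combination h2
  have hw0 : w ≠ 0 := by
    intro h
    rw [h] at hw
    simp at hw
  obtain ⟨v, hv⟩ : ∃ v : Fin n → ℂ, v = fun i => if i = k then w else ((u i : ℚ) : ℂ) := ⟨_, rfl⟩
  have hvk : v k = w := by rw [hv]; simp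
  have hvi : ∀ i ∈ Finset.univ.erase k, v i = ((u i : ℚ) : ℂ) := by
    intro i hi
    rw [hv]
    simp [(Finset.mem_erase.1 hi).1]
  refine ⟨fun i => τ * v i, fun i => ?_, ?_, ?_⟩
  · show (τ * v i).im = (u i : ℝ)
    by_cases hi : i = k
    · rw [hi, hvk, hτw]
      simp [Complex.mul_im, hτim]
    · rw [hvi i (Finset.mem_erase.2 ⟨hi, Finset.mem_univ _⟩)]
      simp [Complex.mul_im, hτim]
  · simp only [map_sum, map_mul, eval_C, map_pow, eval_X]
    rw [← Finset.add_sum_erase _ _ (Finset.mem_univ k), hvk,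
      Finset.sum_congr rfl (fun i hi => by rw [hvi i hi])]
    have h1 : ∑ i ∈ Finset.univ.erase k, a i * (τ * ((u i : ℚ) : ℂ)) ^ d =
        τ ^ d * ∑ i ∈ Finset.univ.erase k, a i * ((u i : ℚ) : ℂ) ^ d := by
      rw [Finset.mul_sum]
      refine Finset.sum_congr rfl fun i _ => ?_
      rw [mul_pow]
      ring
    rw [h1, mul_pow]
    linear_combination τ ^ d * h0
  · rw [deriv_diag]
    simp only [map_sum, map_mul, eval_C, map_pow, eval_X, map_natCast]
    rw [← Finset.add_sum_erase _ _ (Finset.mem_univ k), hvk,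
      Finset.sum_congr rfl (fun i hi => by rw [hvi i hi])]
    obtain ⟨e, rfl⟩ : ∃ e, d = e + 1 := ⟨d - 1, by omega⟩
    have h1 : ∑ i ∈ Finset.univ.erase k, ((u i : ℚ) : ℂ) * (a i * ((e + 1 : ℕ) : ℂ)) *
          (τ * ((u i : ℚ) : ℂ)) ^ (e + 1 - 1) =
        ((e + 1 : ℕ) : ℂ) * τ ^ e *
          ∑ i ∈ Finset.univ.erase k, a i * ((u i : ℚ) : ℂ) ^ (e + 1) := by
      rw [Finset.mul_sum]
      refine Finset.sum_congr rfl fun i _ => ?_
      rw [Nat.add_sub_cancel, mul_pow]
      ring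
    rw [h1, Nat.add_sub_cancel, mul_pow]
    have h2 : ((u k : ℚ) : ℂ) * (a k * ((e + 1 : ℕ) : ℂ)) * (τ ^ e * w ^ e) +
        ((e + 1 : ℕ) : ℂ) * τ ^ e *
          ∑ i ∈ Finset.univ.erase k, a i * ((u i : ℚ) : ℂ) ^ (e + 1) =
        -(((e + 1 : ℕ) : ℂ) * τ ^ e * a k * w ^ e * (w - ((u k : ℚ) : ℂ))) := by
      linear_combination ((e + 1 : ℕ) : ℂ) * τ ^ e * h0
    rw [h2, neg_ne_zero]
    have h3 : ((e + 1 : ℕ) : ℂ) ≠ 0 := by
      exact_mod_cast Nat.succ_ne_zero e
    exact mul_ne_zero (mul_ne_zero (mul_ne_zero (mul_ne_zero h3 (pow_ne_zero _ hτ0)) ha)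
      (pow_ne_zero _ hw0)) hwk

/-- a nonzero number has a `d`-th root which is not real if `d ≥ 3` -/
theorem exists_root {d : ℕ} (hd : 3 ≤ d) (c : ℂ) (hc : c ≠ 0) : ∃ w : ℂ, w.im ≠ 0 ∧ w ^ d = c := by
  obtain ⟨w, hw⟩ := IsAlgClosed.exists_pow_nat_eq c (show 0 < d by omega)
  by_cases hwi : w.im = 0
  · obtain ⟨ω, hω⟩ : ∃ ω, ω = Complex.exp ((2 * Real.pi / d : ℝ) * Complex.I) := ⟨_, rfl⟩
    have hdR : (3 : ℝ) ≤ d := by exact_mod_cast hd
    have hω1 : ω ^ d = 1 := by
      rw [hω, ← Complex.exp_nat_mul]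
      have h1 : (d : ℂ) * ((2 * Real.pi / d : ℝ) * Complex.I) = 2 * Real.pi * Complex.I := by
        push_cast
        have : (d : ℂ) ≠ 0 := by
          exact_mod_cast (show d ≠ 0 by omega)
        field_simp
      rw [h1, Complex.exp_two_pi_mul_I]
    have hωim : 0 < ω.im := by
      rw [hω, Complex.exp_ofReal_mul_I_im]
      refine Real.sin_pos_of_pos_of_lt_pi (by positivity) ?_
      rw [div_lt_iff₀ (by linarith)]
      nlinarith [Real.pi_pos]
    refine ⟨w * ω, ?_, by rw [mul_pow, hω1, mul_one, hw]⟩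
    have hwr : w.re ≠ 0 := by
      intro h
      apply hc
      rw [← hw]
      have : w = 0 := Complex.ext h hwi
      rw [this, zero_pow (by omega)]
    rw [Complex.mul_im, hwi]
    simp only [zero_mul, add_zero]
    exact mul_ne_zero hwr hωim.ne'
  · exact ⟨w, hwi, hw⟩

theorem sum_erase_ne {n d : ℕ} (hn : 2 ≤ n) (hd : 1 ≤ d) (a : Fin n → ℂ) (ha : ∀ i, a i ≠ 0)
    (u : Fin n → ℚ) (hu : u ≠ 0) :
    ∃ k, ∑ i ∈ Finset.univ.erase k, a i * ((u i : ℚ) : ℂ) ^ d ≠ 0 := by
  classical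
  by_contra hcon
  push Not at hcon
  obtain ⟨S, hS⟩ : ∃ S, S = ∑ i, a i * ((u i : ℚ) : ℂ) ^ d := ⟨_, rfl⟩
  have h1 : ∀ k, a k * ((u k : ℚ) : ℂ) ^ d = S := by
    intro k
    rw [hS, ← Finset.add_sum_erase _ _ (Finset.mem_univ k), hcon k, add_zero]
  have h2 : S = n * S := by
    nth_rewrite 1 [hS]
    rw [Finset.sum_congr rfl fun i _ => h1 i]
    simp
  have h3 : S = 0 := by
    have h4 : ((n : ℂ) - 1) * S = 0 := by linear_combination -h2
    rcases mul_eq_zero.1 h4 with h5 | h5
    · exfalso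
      have h6 : (n : ℂ) = 1 := sub_eq_zero.1 h5
      have h7 : n = 1 := by exact_mod_cast h6
      omega
    · exact h5
  apply hu
  funext k
  have h4 := h1 k
  rw [h3] at h4
  rcases mul_eq_zero.1 h4 with h5 | h5
  · exact absurd h5 (ha k)
  · have h6 := pow_eq_zero_iff (by omega : d ≠ 0) |>.1 h5
    exact_mod_cast h6

theorem imaginaryParts_diag {n d : ℕ} (hn : 2 ≤ n) (a : Fin n → ℂ) (ha : ∀ i, a i ≠ 0)
    (h : 3 ≤ d ∨ (d = 2 ∧ ∀ i, ∃ t : ℝ, 0 < t ∧ a i = t)) :
    ImaginaryParts (∑ i, C (a i) * X i ^ d : MvPolynomial (Fin n) ℂ) := by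
  classical
  intro u hu
  have hd : 1 ≤ d := by omega
  obtain ⟨k, hk⟩ := sum_erase_ne hn hd a ha u hu
  rcases h with h | ⟨rfl, h⟩
  · obtain ⟨w, hw, hwd⟩ := exists_root h
      (-(∑ i ∈ Finset.univ.erase k, a i * ((u i : ℚ) : ℂ) ^ d) / a k)
      (div_ne_zero (neg_ne_zero.2 hk) (ha k))
    refine diag_zero hd a u k (ha k) w hw ?_
    rw [hwd, mul_div_cancel₀ _ (ha k)]
    ring
  · choose t ht hat using h
    obtain ⟨B, hB⟩ : ∃ B : ℝ, B = ∑ i ∈ Finset.univ.erase k, t i * (u i : ℝ) ^ 2 := ⟨_, rfl⟩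
    have hBC : ∑ i ∈ Finset.univ.erase k, a i * ((u i : ℚ) : ℂ) ^ 2 = (B : ℂ) := by
      rw [hB]
      push_cast
      refine Finset.sum_congr rfl fun i _ => ?_
      rw [hat i]
    have hB0 : 0 < B := by
      have h1 : 0 ≤ B := by
        rw [hB]
        exact Finset.sum_nonneg fun i _ => mul_nonneg (ht i).le (sq_nonneg _)
      refine lt_of_le_of_ne h1 fun h2 => hk ?_
      rw [hBC, ← h2]
      simp
    have hs : 0 < Real.sqrt (B / t k) := Real.sqrt_pos.2 (div_pos hB0 (ht k))
    refine diag_zero hd a u k (ha k) ((Real.sqrt (B / t k) : ℝ) * Complex.I) ?_ ?_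
    · simp
      exact hs.ne'
    · rw [hBC, mul_pow, Complex.I_sq, ← Complex.ofReal_pow, Real.sq_sqrt (div_pos hB0 (ht k)).le,
        hat k]
      have h3 : (t k : ℂ) ≠ 0 := by exact_mod_cast (ht k).ne'
      push_cast
      field_simp
      ring

theorem noFlat_diag {s d : ℕ} (hd : 3 ≤ d) (a : Fin s → ℂ) (ha : ∀ i, a i ≠ 0)
    (q : MvPolynomial (Fin s) ℂ) (hq : leading q = ∑ i, C (a i) * X i ^ d) :
    NoFlatDirection q := by
  classical
  intro u hu
  obtain ⟨k, hk⟩ : ∃ k, u k ≠ 0 := by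
    by_contra h
    push Not at h
    exact hu (funext h)
  have h2 : deriv u (deriv u (leading q)) ≠ 0 := by
    rw [hq, deriv_diag, deriv_diag]
    intro h
    have h3 := congrArg (eval (Pi.single k 1 : Fin s → ℂ)) h
    simp only [map_sum, map_mul, eval_C, map_pow, eval_X, map_natCast, map_zero] at h3
    rw [Finset.sum_eq_single k] at h3
    · simp only [Pi.single_eq_same, one_pow, mul_one] at h3
      have h4 : ((u k : ℚ) : ℂ) ≠ 0 := by exact_mod_cast hk
      have h5 : (d : ℂ) ≠ 0 := by exact_mod_cast (show d ≠ 0 by omega)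
      have h6 : ((d - 1 : ℕ) : ℂ) ≠ 0 := by exact_mod_cast (show d - 1 ≠ 0 by omega)
      exact (mul_ne_zero h4 (mul_ne_zero (mul_ne_zero h4 (mul_ne_zero (ha k) h5)) h6)) h3
    · intro i _ hi
      rw [Pi.single_eq_of_ne hi, zero_pow (by omega), mul_zero]
    · simp
  refine ⟨fun h => h2 ?_, Or.inl h2⟩
  rw [h]
  unfold deriv
  simp

/-- **Exponential-algebraic closedness for varieties over hypersurfaces.** -/
theorem result :
    -- (A) arbitrary hypersurfaces
    (∀ (n : ℕ), 1 ≤ n → ∀ (P : Ideal (MvPolynomial (Fin n ⊕ Fin n) ℂ))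
      (V : Set (Fin n ⊕ Fin n → ℂ)), IsVariety P V → ∀ m : ℕ, n ≤ m → HasDim V m →
      ∀ F : MvPolynomial (Fin n) ℂ, OverHypersurface V F → ImaginaryParts (leading F) →
        DenseOnTranslates V ∧ (m = n → GenericOnTranslates P V)) ∧
    -- (B) graphs of polynomials
    (∀ (s : ℕ) (P : Ideal (MvPolynomial (Fin (s + 1) ⊕ Fin (s + 1)) ℂ))
      (V : Set (Fin (s + 1) ⊕ Fin (s + 1) → ℂ)), IsVariety P V → HasDim V (s + 1) →
      ∀ (m : Fin (s + 1)) (q : MvPolynomial (Fin s) ℂ), OverGraph V m q → 2 ≤ q.totalDegree →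
      NoFlatDirection q → ∀ k : Fin (s + 1), k ≠ m →
      Indep V ((Finset.univ.erase m).image Sum.inl ∪ {Sum.inr k}) →
        DenseOnTranslates V ∧ GenericOnTranslates P V) ∧
    -- (C) leading forms which satisfy the conditions
    (∀ (n d : ℕ) (a : Fin n → ℂ) (F : MvPolynomial (Fin n) ℂ), (∀ i, a i ≠ 0) →
      leading F = ∑ i, C (a i) * X i ^ d →
      (2 ≤ n → (3 ≤ d ∨ (d = 2 ∧ ∀ i, ∃ t : ℝ, 0 < t ∧ a i = t)) → ImaginaryParts (leading F)) ∧
      (3 ≤ d → NoFlatDirection F)) := by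
  classical
  refine ⟨?_, ?_, ?_⟩
  · intro n hn P V hV m hm hd F hF hq
    obtain ⟨s, rfl⟩ : ∃ s, n = s + 1 := ⟨n - 1, by omega⟩
    have hJ : ∃ J : Finset (Fin (s + 1) ⊕ Fin (s + 1)), J.card = s + 1 ∧ Indep V J := by
      obtain ⟨J, hJ, hJi⟩ := hd.1
      obtain ⟨J', hJ', hJ'c⟩ := Finset.exists_subset_card_eq (hm.trans hJ.ge)
      exact ⟨J', hJ'c, fun f hf => hJi f (hf.trans hJ')⟩
    have hA : DenseOnTranslates V := by
      intro c hc H hH
      obtain ⟨p, ⟨u, hu, rfl⟩, hp⟩ := hH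
      exact Pool.Agent.K3h53.UG.geC P V hV.prime hV.points hV.nonempty hJ F hF
        (fun u hu => nonReal_of_imaginaryParts _ hq u hu) c hc H ⟨u, hu, hp⟩
    exact ⟨hA, fun hmn => generic_of_dense P V hV (hmn ▸ hd.2) hA⟩
  · intro s P V hV hd m q hq hq2 hqn k hkm hind
    obtain ⟨k', hk'⟩ := Fin.exists_succAbove_eq hkm
    have hA : DenseOnTranslates V := by
      intro c hc H hH
      obtain ⟨p, ⟨u, hu, rfl⟩, hp⟩ := hH
      refine Pool.Agent.K3h53.UG.thmB P V hV.prime hV.points hV.nonempty hd.2 m.succAbove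
        Fin.succAbove_right_injective m (fun a => Fin.succAbove_ne m a)
        (fun i hi => Fin.exists_succAbove_eq hi) q hq hq2 ?_ k' ?_ c hc H ⟨u, hu, hp⟩
      · intro u hu
        have h := hqn u hu
        refine ⟨?_, ?_⟩
        · rw [deriv_eq]
          exact h.1
        · rw [deriv_eq, deriv_eq]
          exact h.2
      · intro f hf
        refine hind f (hf.trans ?_)
        unfold Pool.Agent.K3h22.EX.coords
        intro x hx
        rcases Finset.mem_union.1 hx with hx | hx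
        · obtain ⟨a, -, rfl⟩ := Finset.mem_image.1 hx
          exact Finset.mem_union_left _ (Finset.mem_image.2 ⟨m.succAbove a, by
            simp [Fin.succAbove_ne], rfl⟩)
        · obtain ⟨b, hb, rfl⟩ := Finset.mem_image.1 hx
          rw [Finset.mem_singleton] at hb
          rw [hb, hk']
          exact Finset.mem_union_right _ (Finset.mem_singleton_self _)
    exact ⟨hA, generic_of_dense P V hV hd.2 hA⟩
  · intro n d a F ha hF
    exact ⟨fun hn h => hF ▸ imaginaryParts_diag hn a ha h, fun hd => noFlat_diag hd a ha F hF⟩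

end Pool.Agent.Results.MP_209724_lc.HypersurfaceBases
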