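import Pool.Agent.K3h53.UG.Fin11
import Pool.Agent.Y563.SE.Main

/-!
# Axiom (SEAC) (i) in the complex exponential field: varieties over graphs of polynomial maps

`G_n = ℂ^n × (ℂ^*)^n`; its elements are functions on `Fin n ⊕ Fin n` (`Sum.inl`: the coordinates
`x`, `Sum.inr`: the coordinates `y`).  The exponential points are the points `(z, e^z)`.

Let `V ⊆ G_n` be an irreducible variety whose projection to `ℂ^n` lies in the graph of a polynomial
map of `s` of the coordinates: `x_i = p_i(x_{ι(1)}, ..., x_{ι(s)})` on `V`, for all `i`.  Let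
`J(1), ..., J(s)` be further coordinates such that (`Dominant`)

* the degrees of `p_{J(1)}, ..., p_{J(s)}` are at least `2` and larger than the degrees of all other
  `p_i`, and their leading forms are algebraically independent (the Jacobian does not vanish
  identically);
* the `n` functions `x_{ι(a)}` and `y_i`, `i` not among the `J(a)`, are algebraically independent on `V`;
* no nontrivial integral combination of the `x_i`, `i` not among the `J(a)`, is constant on `V`.

(A) Every translate `c V` contains exponential points, and they are Zariski dense in `c V`.  If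
`dim V = n` and `V` is defined over a countable field `K` then on almost all translates `c V` they are
generic: they have transcendence degree `n = dim V` over `K(c)`, and they are Zariski dense.  So
(SEAC) (i), with the genericity, holds in `(ℂ, exp)` for almost all translates of `V`.

(B) Explicit systems of `s` equations in `s` unknowns.  Let `q_1, ..., q_s` and `l_1, ..., l_r` be
polynomials in `z = (z_1, ..., z_s)` such that the degrees of the `q_b` are at least `2` and larger than
the degrees of the `l_i`, the leading forms of the `q_b` are algebraically independent, and no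
nontrivial integral combination of `z_1, ..., z_s, l_1, ..., l_r` is constant.  Let `R_1, ..., R_s` and `H`
be nonzero polynomials.  Then the system

  `exp(q_b(z)) = R_b(z, exp(z_1), ..., exp(z_s), exp(l_1(z)), ..., exp(l_r(z)))`, `b = 1, ..., s`,

has a solution `z` with `H(z, exp(z_1), ..., exp(z_s), exp(l_1(z)), ..., exp(l_r(z))) ≠ 0`.

For varieties with a dominant projection to `ℂ^n` (systems `exp(z_b) = R_b(z)`, and the like) this is
the theorem of Brownawell and Masser; here the projection of `V` has dimension `s ≤ n / 2`.  For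
linear `p_i` see Zilber, Gallinaro, and the starting hand-in `LinearSpacesAtInfinity`; the systems with
`s = 1` are equations in one variable.  The closure of a graph of polynomials of degree `≥ 2` does not
contain a linear space in general position at infinity.

The proof is the project `UG` (`Pool.Agent.K3h53.UG`, with parts in other folders) of the starting
library, where (A) was proved (`geA`) and not handed in: near `R ζ`, `R → ∞`, `ζ` a point where the
leading forms of the `p_{J(a)}` have real part zero, all the polynomials which occur in the equations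
of `V` are dominated by one monomial in the `exp(p_i)`, `i` not among the `J(a)`, and the equations
`p_{J(a)}(z) = log y_{J(a)} + 2 π i N_a` are solved by a fixed point argument, since the left side is
of larger order.  The genericity is the theorem (A) of the starting hand-in `CurvesInTheTorus`.
-/

set_option autoImplicit false

open MvPolynomial MeasureTheory

namespace Pool.Agent.Results.MP_209724_lc.PolynomialGraphBases

/-- `V` is the set of points of `G_n = ℂ^n × (ℂ^*)^n` on which the prime ideal `P` vanishes: an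
irreducible subvariety. -/
structure IsVariety {n : ℕ} (P : Ideal (MvPolynomial (Fin n ⊕ Fin n) ℂ))
    (V : Set (Fin n ⊕ Fin n → ℂ)) : Prop where
  prime : P.IsPrime
  points : V = {p | (∀ f ∈ P, eval p f = 0) ∧ ∀ j : Fin n, p (Sum.inr j) ≠ 0}
  nonempty : V.Nonempty

/-- the coordinates with index in `J` are algebraically independent on `V` -/
def Indep {n : ℕ} (V : Set (Fin n ⊕ Fin n → ℂ)) (J : Finset (Fin n ⊕ Fin n)) : Prop :=
  ∀ f : MvPolynomial (Fin n ⊕ Fin n) ℂ, f.vars ⊆ J → (∀ p ∈ V, eval p f = 0) → f = 0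

/-- `dim V = d`: the largest number of algebraically independent coordinates is `d` -/
def HasDim {n : ℕ} (V : Set (Fin n ⊕ Fin n → ℂ)) (d : ℕ) : Prop :=
  (∃ J, J.card = d ∧ Indep V J) ∧ ∀ J, J.card = d + 1 → ¬ Indep V J

/-- `V` lies over the graph `x_i = p_i(x_{ι(1)}, ..., x_{ι(s)})` -/
def OverGraph {n s : ℕ} (V : Set (Fin n ⊕ Fin n → ℂ)) (ι : Fin s → Fin n)
    (p : Fin n → MvPolynomial (Fin s) ℂ) : Prop :=
  ∀ u ∈ V, ∀ i, u (Sum.inl i) = eval (fun a => u (Sum.inl (ι a))) (p i)

/-- the leading form of a polynomial -/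
noncomputable def leading {n : ℕ} (q : MvPolynomial (Fin n) ℂ) : MvPolynomial (Fin n) ℂ :=
  homogeneousComponent q.totalDegree q

/-- the leading forms of the polynomials `q_b` are algebraically independent: their Jacobian does not
vanish at some point -/
def LeadingIndependent {s : ℕ} (q : Fin s → MvPolynomial (Fin s) ℂ) : Prop :=
  ∃ ζ : Fin s → ℂ, (Matrix.of fun a b => eval ζ (pderiv b (leading (q a)))).det ≠ 0

/-- the coordinates `J(1), ..., J(s)` dominate: conditions on degrees and leading forms, on the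
algebraic independence of the other coordinates, and on integral relations -/
structure Dominant {n s : ℕ} (V : Set (Fin n ⊕ Fin n → ℂ)) (ι : Fin s → Fin n)
    (p : Fin n → MvPolynomial (Fin s) ℂ) (J : Fin s → Fin n) : Prop where
  high : ∀ a, 2 ≤ (p (J a)).totalDegree
  low : ∀ i, (∀ a, J a ≠ i) → ∀ a, (p i).totalDegree < (p (J a)).totalDegree
  leading : LeadingIndependent fun a => p (J a)
  indep : Indep V ((Finset.univ.image fun a => Sum.inl (ι a)) ∪
    (Finset.univ.filter fun i => ∀ a, J a ≠ i).image Sum.inr)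
  free : ∀ m : Fin n → ℤ, m ≠ 0 → (∀ a, m (J a) = 0) → ∀ k : ℂ,
    ∃ u ∈ V, ∑ i, (m i : ℂ) * u (Sum.inl i) ≠ k

/-- the translate `c V` -/
def Translate {n : ℕ} (c : Fin n ⊕ Fin n → ℂ) (V : Set (Fin n ⊕ Fin n → ℂ)) :
    Set (Fin n ⊕ Fin n → ℂ) :=
  {p | ∃ u ∈ V, p = Sum.elim (fun i => u (Sum.inl i) + c (Sum.inl i))
    (fun i => c (Sum.inr i) * u (Sum.inr i))}

/-- the exponential point `(z, e^z)` -/
noncomputable def ExpPoint {n : ℕ} (z : Fin n → ℂ) : Fin n ⊕ Fin n → ℂ :=
  Sum.elim z (fun i => Complex.exp (z i))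

/-- `tr.deg_{K(c)} K(c)(z, e^z)` -/
noncomputable def trdegOver {n : ℕ} (K : Subfield ℂ) (c : Fin n ⊕ Fin n → ℂ) (z : Fin n → ℂ) :
    Cardinal :=
  Algebra.trdeg (IntermediateField.adjoin K (Set.range c))
    (IntermediateField.adjoin (IntermediateField.adjoin K (Set.range c)) (Set.range (ExpPoint z)))

/-- every translate `c V` contains exponential points, also outside of any hypersurface `H = 0` which
does not contain `c V` -/
def DenseOnTranslates {n : ℕ} (V : Set (Fin n ⊕ Fin n → ℂ)) : Prop :=
  ∀ c : Fin n ⊕ Fin n → ℂ, (∀ i, c (Sum.inr i) ≠ 0) →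
    ∀ H : MvPolynomial (Fin n ⊕ Fin n) ℂ, (∃ p ∈ Translate c V, eval p H ≠ 0) →
    ∃ z : Fin n → ℂ, ExpPoint z ∈ Translate c V ∧ eval (ExpPoint z) H ≠ 0

/-- if `P` is defined over the countable field `K` then for almost all `c` there are exponential
points on `c V` which have transcendence degree `n` over `K(c)`, also outside of any hypersurface
`H = 0` which does not contain `c V` -/
def GenericOnTranslates {n : ℕ} (P : Ideal (MvPolynomial (Fin n ⊕ Fin n) ℂ))
    (V : Set (Fin n ⊕ Fin n → ℂ)) : Prop :=
  ∀ (K : Subfield ℂ) [Countable K], (∃ S : Set (MvPolynomial (Fin n ⊕ Fin n) K),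
      P = Ideal.span (MvPolynomial.map (algebraMap K ℂ) '' S)) →
    ∀ᵐ c : Fin n ⊕ Fin n → ℂ, (∀ i, c (Sum.inr i) ≠ 0) ∧
      ∀ H : MvPolynomial (Fin n ⊕ Fin n) ℂ, (∃ p ∈ Translate c V, eval p H ≠ 0) →
      ∃ z : Fin n → ℂ, ExpPoint z ∈ Translate c V ∧ eval (ExpPoint z) H ≠ 0 ∧
        trdegOver K c z = n

theorem generic_of_dense {n : ℕ} (P : Ideal (MvPolynomial (Fin n ⊕ Fin n) ℂ))
    (V : Set (Fin n ⊕ Fin n → ℂ)) (hV : IsVariety P V) (hd : ∀ J, J.card = n + 1 → ¬ Indep V J)
    (hA : DenseOnTranslates V) : GenericOnTranslates P V := by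
  intro K _ ⟨S, hS⟩
  have hgen := Pool.Agent.Y563.SE.generic_pts P V hV.prime hV.points hV.nonempty (by
    intro J hJ
    have h1 := hd J hJ
    unfold Indep at h1
    push Not at h1
    obtain ⟨f, h2, h3, h4⟩ := h1
    exact ⟨f, h4, h2, h3⟩) K S hS
  have hne : ∀ᵐ c : Fin n ⊕ Fin n → ℂ, ∀ i : Fin n, c (Sum.inr i) ≠ 0 := by
    rw [ae_all_iff]
    intro i
    have h1 : (volume : Measure (Fin n ⊕ Fin n → ℂ)) {c | c (Sum.inr i) = 0} = 0 := by
      have h2 : {c : Fin n ⊕ Fin n → ℂ | c (Sum.inr i) = 0} =
          (LinearMap.ker (LinearMap.proj (R := ℝ) (φ := fun _ : Fin n ⊕ Fin n => ℂ)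
            (Sum.inr i)) : Set (Fin n ⊕ Fin n → ℂ)) := by
        ext c
        simp
      rw [h2]
      refine Measure.addHaar_submodule _ _ fun h => ?_
      have h3 : (fun _ => (1 : ℂ) : Fin n ⊕ Fin n → ℂ) ∈
          LinearMap.ker (LinearMap.proj (R := ℝ) (φ := fun _ : Fin n ⊕ Fin n => ℂ)
            (Sum.inr i)) := by
        rw [h]
        trivial
      simp at h3
    rw [ae_iff]
    simpa using h1
  filter_upwards [hgen, hne] with c hc hc'
  refine ⟨hc', fun H hH => ?_⟩
  obtain ⟨z, hz, hz'⟩ := hA c hc' H hH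
  exact ⟨z, hz, hz', hc z hz⟩

theorem partA {n s : ℕ} (P : Ideal (MvPolynomial (Fin n ⊕ Fin n) ℂ))
    (V : Set (Fin n ⊕ Fin n → ℂ)) (hV : IsVariety P V) (ι : Fin s → Fin n)
    (hι : Function.Injective ι) (p : Fin n → MvPolynomial (Fin s) ℂ) (hp : OverGraph V ι p)
    (J : Fin s → Fin n) (hJ : Function.Injective J) (hD : Dominant V ι p J) :
    DenseOnTranslates V := by
  intro c hc H hH
  obtain ⟨x, ⟨u, hu, rfl⟩, hx⟩ := hH
  obtain ⟨ζ, hζ⟩ := hD.leading
  exact Pool.Agent.K3h53.UG.geA P V hV.prime hV.points ι hι p hp J hJ hD.indep hD.free hD.low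
    hD.high ζ hζ c hc H ⟨u, hu, hx⟩

section Systems

variable {s r : ℕ} (l : Fin r → MvPolynomial (Fin s) ℂ) (q : Fin s → MvPolynomial (Fin s) ℂ)
  (R : Fin s → MvPolynomial (Fin s ⊕ Fin (s + r)) ℂ)

/-- the exponents: `z`, `l(z)`, `q(z)` -/
noncomputable def allExp : Fin (s + r + s) → MvPolynomial (Fin s) ℂ :=
  Fin.append (Fin.append (fun a => X a) l) q

/-- the values of the exponentials: `w`, `R(z, w)` -/
noncomputable def allVal : Fin (s + r + s) → MvPolynomial (Fin s ⊕ Fin (s + r)) ℂ :=
  Fin.append (fun j => X (Sum.inr j)) R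

/-- the parametrization -/
noncomputable def par : MvPolynomial (Fin (s + r + s) ⊕ Fin (s + r + s)) ℂ →ₐ[ℂ]
    MvPolynomial (Fin s ⊕ Fin (s + r)) ℂ :=
  aeval (Sum.elim (fun i => rename Sum.inl (allExp l q i)) (allVal R))

/-- the parametrization, points -/
noncomputable def pt (t : Fin s ⊕ Fin (s + r) → ℂ) : Fin (s + r + s) ⊕ Fin (s + r + s) → ℂ :=
  Sum.elim (fun i => eval (fun a => t (Sum.inl a)) (allExp l q i)) fun j => eval t (allVal R j)

theorem eval_par (t : Fin s ⊕ Fin (s + r) → ℂ)
    (f : MvPolynomial (Fin (s + r + s) ⊕ Fin (s + r + s)) ℂ) :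
    eval t (par l q R f) = eval (pt l q R t) f := by
  have h : (eval t).comp (par l q R : _ →+* _) = eval (pt l q R t) := by
    refine MvPolynomial.ringHom_ext (fun a => ?_) ?_
    · simp [par]
    · rintro (i | i)
      · simp only [par, pt, RingHom.comp_apply, RingHom.coe_coe, aeval_X, Sum.elim_inl,
          eval_rename, eval_X]
        rfl
      · simp [par, pt]
  exact RingHom.congr_fun h f

/-- the ideal of the system -/
noncomputable def sysIdeal : Ideal (MvPolynomial (Fin (s + r + s) ⊕ Fin (s + r + s)) ℂ) :=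
  RingHom.ker (par l q R : _ →+* MvPolynomial (Fin s ⊕ Fin (s + r)) ℂ)

/-- the variety of the system -/
noncomputable def sysVar : Set (Fin (s + r + s) ⊕ Fin (s + r + s) → ℂ) :=
  {p | (∀ f ∈ sysIdeal l q R, eval p f = 0) ∧ ∀ j : Fin (s + r + s), p (Sum.inr j) ≠ 0}

theorem mem_sysVar (p : Fin (s + r + s) ⊕ Fin (s + r + s) → ℂ) :
    p ∈ sysVar l q R ↔ ∃ t : Fin s ⊕ Fin (s + r) → ℂ, p = pt l q R t ∧
      (∀ j, t (Sum.inr j) ≠ 0) ∧ ∀ b, eval t (R b) ≠ 0 := by
  constructor
  · rintro ⟨h1, h2⟩
    obtain ⟨t, ht⟩ : ∃ t : Fin s ⊕ Fin (s + r) → ℂ, t = Sum.elim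
      (fun a => p (Sum.inl (Fin.castAdd s (Fin.castAdd r a)))) (fun j => p (Sum.inr (Fin.castAdd s j)))
      := ⟨_, rfl⟩
    -- the coordinates of `p`
    have hx : ∀ i, p (Sum.inl i) = eval (fun a => t (Sum.inl a)) (allExp l q i) := by
      intro i
      have h3 : (X (Sum.inl i) - rename (fun a => Sum.inl (Fin.castAdd s (Fin.castAdd r a)))
          (allExp l q i) : MvPolynomial (Fin (s + r + s) ⊕ Fin (s + r + s)) ℂ) ∈
          sysIdeal l q R := by
        rw [sysIdeal, RingHom.mem_ker]
        have h4 : (par l q R) (rename (fun a => Sum.inl (Fin.castAdd s (Fin.castAdd r a)))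
            (allExp l q i)) = rename Sum.inl (allExp l q i) := by
          rw [par, aeval_rename]
          have h5 : (Sum.elim (fun i => rename Sum.inl (allExp l q i)) (allVal R) ∘
              fun a : Fin s => (Sum.inl (Fin.castAdd s (Fin.castAdd r a)) :
                Fin (s + r + s) ⊕ Fin (s + r + s))) =
              (X ∘ Sum.inl : Fin s → MvPolynomial (Fin s ⊕ Fin (s + r)) ℂ) := by
            funext a
            simp [allExp]
          rw [h5, ← aeval_rename, aeval_X_left_apply]
        rw [AlgHom.coe_toRingHom, map_sub, h4, par, aeval_X, Sum.elim_inl, sub_self]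
      have h5 := h1 _ h3
      rw [map_sub, eval_X, eval_rename, sub_eq_zero] at h5
      rw [h5, ht]
      rfl
    have hy : ∀ j, p (Sum.inr j) = eval t (allVal R j) := by
      intro j
      obtain ⟨g, hg⟩ : ∃ g : MvPolynomial (Fin (s + r + s) ⊕ Fin (s + r + s)) ℂ,
          g = rename (Sum.map (fun a => Fin.castAdd s (Fin.castAdd r a)) (Fin.castAdd s))
            (allVal R j) := ⟨_, rfl⟩
      have h3 : (X (Sum.inr j) - g : MvPolynomial (Fin (s + r + s) ⊕ Fin (s + r + s)) ℂ) ∈
          sysIdeal l q R := by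
        rw [sysIdeal, RingHom.mem_ker]
        have h4 : (par l q R) g = allVal R j := by
          rw [hg, par, aeval_rename]
          have h5 : (Sum.elim (fun i => rename Sum.inl (allExp l q i)) (allVal R) ∘
              Sum.map (fun a => Fin.castAdd s (Fin.castAdd r a)) (Fin.castAdd s) :
              Fin s ⊕ Fin (s + r) → MvPolynomial (Fin s ⊕ Fin (s + r)) ℂ) = X := by
            funext x
            rcases x with a | a
            · simp [allExp]
            · simp [allVal]
          rw [h5, aeval_X_left_apply]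
        rw [AlgHom.coe_toRingHom, map_sub, h4, par, aeval_X, Sum.elim_inr, sub_self]
      have h5 := h1 _ h3
      rw [map_sub, eval_X, hg, eval_rename, sub_eq_zero] at h5
      rw [h5, ht]
      congr 2
      funext x
      rcases x with a | a <;> rfl
    have hp : p = pt l q R t := by
      funext x
      rcases x with i | j
      · exact hx i
      · exact hy j
    refine ⟨t, hp, fun j => ?_, fun b => ?_⟩
    · have h3 := h2 (Fin.castAdd s j)
      rw [hy] at h3
      simpa [allVal] using h3
    · have h3 := h2 (Fin.natAdd (s + r) b)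
      rw [hy] at h3
      simpa [allVal] using h3
  · rintro ⟨t, rfl, h2, h3⟩
    refine ⟨fun f hf => ?_, fun j => ?_⟩
    · rw [← eval_par]
      rw [sysIdeal, RingHom.mem_ker, AlgHom.coe_toRingHom] at hf
      rw [hf, map_zero]
    · show eval t (allVal R j) ≠ 0
      refine Fin.addCases (fun j => ?_) (fun b => ?_) j
      · simpa [allVal] using h2 j
      · simpa [allVal] using h3 b

/-- a polynomial which vanishes at the points of the parametrization is zero -/
theorem eq_zero_of_param (hR : ∀ b, R b ≠ 0) (g : MvPolynomial (Fin s ⊕ Fin (s + r)) ℂ)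
    (hg : ∀ t : Fin s ⊕ Fin (s + r) → ℂ, (∀ j, t (Sum.inr j) ≠ 0) → (∀ b, eval t (R b) ≠ 0) →
      eval t g = 0) : g = 0 := by
  have h1 : g * ((∏ j, X (Sum.inr j)) * ∏ b, R b) = 0 := by
    apply MvPolynomial.funext
    intro t
    rw [map_mul, map_zero, map_mul, map_prod, map_prod]
    by_cases h2 : (∏ j : Fin (s + r), eval t (X (Sum.inr j) : MvPolynomial (Fin s ⊕ Fin (s + r)) ℂ)) *
        ∏ b, eval t (R b) = 0
    · rw [h2, mul_zero]
    · have h3 := mul_ne_zero_iff.1 h2
      rw [hg t (fun j => by
        have := Finset.prod_ne_zero_iff.1 h3.1 j (Finset.mem_univ _)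
        rwa [eval_X] at this) (fun b => Finset.prod_ne_zero_iff.1 h3.2 b (Finset.mem_univ _)),
        zero_mul]
  rcases mul_eq_zero.1 h1 with h | h
  · exact h
  · exfalso
    rcases mul_eq_zero.1 h with h | h
    · obtain ⟨j, -, hj⟩ := Finset.prod_eq_zero_iff.1 h
      exact X_ne_zero _ hj
    · obtain ⟨b, -, hb⟩ := Finset.prod_eq_zero_iff.1 h
      exact hR b hb

theorem exists_param (hR : ∀ b, R b ≠ 0) (g : MvPolynomial (Fin s ⊕ Fin (s + r)) ℂ) (hg : g ≠ 0) :
    ∃ t : Fin s ⊕ Fin (s + r) → ℂ, (∀ j, t (Sum.inr j) ≠ 0) ∧ (∀ b, eval t (R b) ≠ 0) ∧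
      eval t g ≠ 0 := by
  by_contra hcon
  push Not at hcon
  exact hg (eq_zero_of_param R hR g hcon)

theorem isVariety_sys (hR : ∀ b, R b ≠ 0) : IsVariety (sysIdeal l q R) (sysVar l q R) where
  prime := RingHom.ker_isPrime _
  points := rfl
  nonempty := by
    obtain ⟨t, h1, h2, -⟩ := exists_param R hR 1 one_ne_zero
    exact ⟨pt l q R t, (mem_sysVar l q R _).2 ⟨t, rfl, h1, h2⟩⟩

theorem partB_dominant (hq : ∀ b, 2 ≤ (q b).totalDegree)
    (hl : ∀ i b, (l i).totalDegree < (q b).totalDegree) (hlead : LeadingIndependent q)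
    (hfree : ∀ (m : Fin s → ℤ) (m' : Fin r → ℤ), (m ≠ 0 ∨ m' ≠ 0) → ∀ k : ℂ,
      ∑ a, C (m a : ℂ) * X a + ∑ i, C (m' i : ℂ) * l i ≠ C k) (hR : ∀ b, R b ≠ 0) :
    Dominant (sysVar l q R) (fun a => Fin.castAdd s (Fin.castAdd r a)) (allExp l q)
      (Fin.natAdd (s + r)) where
  high := fun a => by simpa [allExp] using hq a
  low := by
    intro i hi a
    refine Fin.addCases (fun j => ?_) (fun b => ?_) i (motive := fun i =>
      (∀ a, Fin.natAdd (s + r) a ≠ i) → (allExp l q i).totalDegree <
        (allExp l q (Fin.natAdd (s + r) a)).totalDegree) hi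
    · intro _
      refine Fin.addCases (fun c => ?_) (fun c => ?_) j
      · simp only [allExp, Fin.append_left, Fin.append_right, totalDegree_X]
        have := hq a
        omega
      · simp only [allExp, Fin.append_left, Fin.append_right]
        exact hl c a
    · intro h
      exact absurd rfl (h b)
  leading := by simpa [allExp] using hlead
  indep := by
    intro f hf hfV
    obtain ⟨g, rfl⟩ := exists_rename_eq_of_vars_subset_range f
      (Sum.map (fun a => Fin.castAdd s (Fin.castAdd r a)) (Fin.castAdd s) :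
        Fin s ⊕ Fin (s + r) → Fin (s + r + s) ⊕ Fin (s + r + s))
      (Function.Injective.sumMap (fun a b h => by
          exact Fin.castAdd_injective _ _ (Fin.castAdd_injective _ _ h))
        (Fin.castAdd_injective _ _)) (by
      intro x hx
      rcases Finset.mem_union.1 (hf hx) with hx | hx
      · obtain ⟨a, -, rfl⟩ := Finset.mem_image.1 hx
        exact ⟨Sum.inl a, rfl⟩
      · obtain ⟨i, hi, rfl⟩ := Finset.mem_image.1 hx
        have hi' := (Finset.mem_filter.1 hi).2
        revert hi'
        refine Fin.addCases (fun j => ?_) (fun b => ?_) i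
        · intro _
          exact ⟨Sum.inr j, rfl⟩
        · intro h
          exact absurd rfl (h b))
    have hg : g = 0 := by
      refine eq_zero_of_param R hR g fun t h1 h2 => ?_
      have h3 := hfV _ ((mem_sysVar l q R _).2 ⟨t, rfl, h1, h2⟩)
      rw [eval_rename] at h3
      have h4 : (pt l q R t ∘ Sum.map (fun a => Fin.castAdd s (Fin.castAdd r a)) (Fin.castAdd s)) =
          t := by
        funext x
        rcases x with a | j
        · simp [pt, allExp]
        · simp [pt, allVal]
      rwa [h4] at h3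
    rw [hg, map_zero]
  free := by
    intro m hm hmJ k
    by_contra hcon
    push Not at hcon
    obtain ⟨m₁, hm₁⟩ : ∃ m₁ : Fin s → ℤ, m₁ = fun a => m (Fin.castAdd s (Fin.castAdd r a)) :=
      ⟨_, rfl⟩
    obtain ⟨m₂, hm₂⟩ : ∃ m₂ : Fin r → ℤ, m₂ = fun i => m (Fin.castAdd s (Fin.natAdd s i)) :=
      ⟨_, rfl⟩
    have hne : m₁ ≠ 0 ∨ m₂ ≠ 0 := by
      by_contra h
      push Not at h
      apply hm
      funext i
      refine Fin.addCases (fun j => ?_) (fun b => ?_) i
      · refine Fin.addCases (fun c => ?_) (fun c => ?_) j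
        · have := congrFun h.1 c
          rw [hm₁] at this
          exact this
        · have := congrFun h.2 c
          rw [hm₂] at this
          exact this
      · exact hmJ b
    apply hfree m₁ m₂ hne k
    rw [← sub_eq_zero]
    have h1 : rename (Sum.inl : Fin s → Fin s ⊕ Fin (s + r))
        (∑ a, C (m₁ a : ℂ) * X a + ∑ i, C (m₂ i : ℂ) * l i - C k) = 0 := by
      refine eq_zero_of_param R hR _ fun t h1 h2 => ?_
      have h3 := hcon _ ((mem_sysVar l q R _).2 ⟨t, rfl, h1, h2⟩)
      rw [eval_rename, map_sub, map_add, map_sum, map_sum, eval_C, sub_eq_zero, ← h3,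
        Fin.sum_univ_add, Fin.sum_univ_add]
      simp only [map_mul, eval_C, eval_X, pt, allExp, Sum.elim_inl, Fin.append_left,
        Fin.append_right, hmJ, hm₁, hm₂, Int.cast_zero, zero_mul, Finset.sum_const_zero, add_zero]
      rfl
    exact rename_injective _ Sum.inl_injective (h1.trans (map_zero _).symm)

end Systems

/-- **Exponential-algebraic closedness for varieties over graphs of polynomial maps.** -/
theorem result :
    -- (A) varieties over graphs of polynomial maps
    (∀ (n s : ℕ) (P : Ideal (MvPolynomial (Fin n ⊕ Fin n) ℂ)) (V : Set (Fin n ⊕ Fin n → ℂ)),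
      IsVariety P V → ∀ (ι : Fin s → Fin n) (p : Fin n → MvPolynomial (Fin s) ℂ)
      (J : Fin s → Fin n), Function.Injective ι → Function.Injective J → OverGraph V ι p →
      Dominant V ι p J → DenseOnTranslates V ∧ (HasDim V n → GenericOnTranslates P V)) ∧
    -- (B) systems of exponential equations
    (∀ (s r : ℕ) (l : Fin r → MvPolynomial (Fin s) ℂ) (q : Fin s → MvPolynomial (Fin s) ℂ)
      (R : Fin s → MvPolynomial (Fin s ⊕ Fin (s + r)) ℂ) (H : MvPolynomial (Fin s ⊕ Fin (s + r)) ℂ),
      (∀ b, 2 ≤ (q b).totalDegree) → (∀ i b, (l i).totalDegree < (q b).totalDegree) →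
      LeadingIndependent q →
      (∀ (m : Fin s → ℤ) (m' : Fin r → ℤ), (m ≠ 0 ∨ m' ≠ 0) → ∀ k : ℂ,
        ∑ a, C (m a : ℂ) * X a + ∑ i, C (m' i : ℂ) * l i ≠ C k) →
      (∀ b, R b ≠ 0) → H ≠ 0 →
      ∃ z : Fin s → ℂ,
        (∀ b, Complex.exp (eval z (q b)) =
          eval (Sum.elim z (Fin.append (fun a => Complex.exp (z a))
            fun i => Complex.exp (eval z (l i)))) (R b)) ∧
        eval (Sum.elim z (Fin.append (fun a => Complex.exp (z a))
          fun i => Complex.exp (eval z (l i)))) H ≠ 0) := by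
  classical
  refine ⟨?_, ?_⟩
  · intro n s P V hV ι p J hι hJ hp hD
    have hA := partA P V hV ι hι p hp J hJ hD
    exact ⟨hA, fun hd => generic_of_dense P V hV hd.2 hA⟩
  · intro s r l q R H hq hl hlead hfree hR hH
    have hV := isVariety_sys l q R hR
    have hD := partB_dominant l q R hq hl hlead hfree hR
    have hG : OverGraph (sysVar l q R) (fun a => Fin.castAdd s (Fin.castAdd r a)) (allExp l q) := by
      intro u hu i
      obtain ⟨t, rfl, -, -⟩ := (mem_sysVar l q R u).1 hu
      show eval (fun a => t (Sum.inl a)) (allExp l q i) = _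
      congr 2
      funext a
      simp [pt, allExp]
    have hA := partA _ _ hV _ (fun a b h => Fin.castAdd_injective _ _
      (Fin.castAdd_injective _ _ h)) (allExp l q) hG _ (Fin.natAdd_injective _ _) hD
    obtain ⟨t, h1, h2, h3⟩ := exists_param R hR H hH
    obtain ⟨H', hH'⟩ : ∃ H' : MvPolynomial (Fin (s + r + s) ⊕ Fin (s + r + s)) ℂ,
        H' = rename (Sum.map (fun a => Fin.castAdd s (Fin.castAdd r a)) (Fin.castAdd s)) H :=
      ⟨_, rfl⟩
    have hpt : ∀ t, eval (pt l q R t) H' = eval t H := by
      intro t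
      rw [hH', eval_rename]
      congr 2
      funext x
      rcases x with a | j
      · simp [pt, allExp]
      · simp [pt, allVal]
    obtain ⟨z, ⟨u, hu, hz⟩, hz'⟩ := hA (Sum.elim (fun _ => 0) fun _ => 1) (by simp) H'
      ⟨pt l q R t, ⟨pt l q R t, (mem_sysVar l q R _).2 ⟨t, rfl, h1, h2⟩, by
        funext x
        rcases x with i | i <;> simp⟩, by rw [hpt]; exact h3⟩
    obtain ⟨τ, rfl, h4, h5⟩ := (mem_sysVar l q R u).1 hu
    have hz2 : ExpPoint z = pt l q R τ := by
      rw [hz]
      funext x
      rcases x with i | i <;> simp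
    have hzi : ∀ i, z i = eval (fun a => τ (Sum.inl a)) (allExp l q i) := fun i =>
      congrFun hz2 (Sum.inl i)
    have hei : ∀ i, Complex.exp (z i) = eval τ (allVal R i) := fun i =>
      congrFun hz2 (Sum.inr i)
    have hτ : τ = Sum.elim (fun a => τ (Sum.inl a)) (Fin.append
        (fun a => Complex.exp (τ (Sum.inl a)))
        fun i => Complex.exp (eval (fun a => τ (Sum.inl a)) (l i))) := by
      funext x
      rcases x with a | j
      · rfl
      · have h6 : τ (Sum.inr j) = Complex.exp (z (Fin.castAdd s j)) := by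
          rw [hei]
          simp [allVal]
        rw [h6, hzi]
        refine Fin.addCases (fun c => ?_) (fun c => ?_) j
        · simp [allExp]
        · simp [allExp]
    refine ⟨fun a => τ (Sum.inl a), fun b => ?_, ?_⟩
    · have h6 : Complex.exp (z (Fin.natAdd (s + r) b)) = eval τ (R b) := by
        rw [hei]
        simp [allVal]
      rw [hzi] at h6
      rw [← hτ, ← h6]
      simp [allExp]
    · rw [← hτ, ← hpt, ← hz2]
      exact hz'

end Pool.Agent.Results.MP_209724_lc.PolynomialGraphBases
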