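import Pool.Agent.U573.LF.Main
import Pool.Agent.U573.LF.Lin
import Pool.Agent.U573.LF.Fam
import Pool.Agent.Y563.SE.Main

/-!
# Exponential points over products of plane curves

Axiom (SEAC)(i) for `(ℂ, exp)`, for varieties `V ⊆ G_n` whose projection to `ℂ^n` has codimension `r`
and contains many linear spaces at infinity: for each rational `n × r` matrix `S` (with unit rows at
the coordinates `κ`) one of them meets the column space of `S` only in `0`.  The linear space may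
depend on `S`.  This is the case for (open parts of) products of `r` plane curves with two nonreal
asymptotic directions each and an affine space: for them no single linear space at infinity is good
for all `S`, but for each `S` one of the `2^r` choices of the directions is, because
`det (1 - diag(γ) S')` is affine in each `γ_b` and is `1` at `γ = 0`.

`result` has three parts: (A) the criterion, (B) the class of varieties, (C) a family of systems of
`r` equations.
-/

set_option autoImplicit false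

open MvPolynomial MeasureTheory

namespace Pool.Agent.Results.MP_209724_lc.ProductsOfCurves

/-- `V` is the set of points of `G_n = ℂ^n × (ℂ^*)^n` on which the prime ideal `P` vanishes: an
irreducible subvariety. -/
structure IsVariety {n : ℕ} (P : Ideal (MvPolynomial (Fin n ⊕ Fin n) ℂ))
    (V : Set (Fin n ⊕ Fin n → ℂ)) : Prop where
  prime : P.IsPrime
  points : V = {p | (∀ f ∈ P, eval p f = 0) ∧ ∀ j : Fin n, p (Sum.inr j) ≠ 0}
  nonempty : V.Nonempty

/-- the coordinates with index in `J` are algebraically independent on `V` -/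
def Indep {n : ℕ} (V : Set (Fin n ⊕ Fin n → ℂ)) (J : Finset (Fin n ⊕ Fin n)) : Prop :=
  ∀ f : MvPolynomial (Fin n ⊕ Fin n) ℂ, f.vars ⊆ J → (∀ p ∈ V, eval p f = 0) → f = 0

/-- `dim V = d`: the largest number of algebraically independent coordinates is `d` -/
def HasDim {n : ℕ} (V : Set (Fin n ⊕ Fin n → ℂ)) (d : ℕ) : Prop :=
  (∃ J, J.card = d ∧ Indep V J) ∧ ∀ J, J.card = d + 1 → ¬ Indep V J

/-- the coordinates `x_i`, `i` in `K`, are algebraically independent on `V` -/
def IndepBase {n : ℕ} (V : Set (Fin n ⊕ Fin n → ℂ)) (K : Finset (Fin n)) : Prop :=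
  ∀ G : MvPolynomial (Fin n) ℂ, G.vars ⊆ K → (∀ u ∈ V, eval (fun i => u (Sum.inl i)) G = 0) → G = 0

/-- the projection of `V` to `ℂ^n` has dimension `s` -/
def BaseDim {n : ℕ} (V : Set (Fin n ⊕ Fin n → ℂ)) (s : ℕ) : Prop :=
  (∃ K, K.card = s ∧ IndepBase V K) ∧ ∀ K, K.card = s + 1 → ¬ IndepBase V K

/-- the functions `y_{κ(1)}, ..., y_{κ(r)}` are algebraically independent over the functions of `x` on
`V`: if a polynomial in them with coefficients in `ℂ[x]` vanishes on `V` then its coefficients do -/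
def IndepOverBase {n r : ℕ} (V : Set (Fin n ⊕ Fin n → ℂ)) (κ : Fin r → Fin n) : Prop :=
  ∀ g : MvPolynomial (Fin r) (MvPolynomial (Fin n) ℂ),
    (∀ u ∈ V, eval (fun b => u (Sum.inr (κ b)))
      (MvPolynomial.map (eval fun i => u (Sum.inl i)) g) = 0) →
    ∀ m, ∀ u ∈ V, eval (fun i => u (Sum.inl i)) (coeff m g) = 0

/-- the Zariski closure of the projection of `V` to `ℂ^n` contains all points with
`F_1 = ... = F_r = 0`, `g ≠ 0` -/
def BaseContains {n r : ℕ} (V : Set (Fin n ⊕ Fin n → ℂ)) (F : Fin r → MvPolynomial (Fin n) ℂ)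
    (g : MvPolynomial (Fin n) ℂ) : Prop :=
  ∀ x : Fin n → ℂ, (∀ i, eval x (F i) = 0) → eval x g ≠ 0 →
    ∀ G : MvPolynomial (Fin n) ℂ, (∀ u ∈ V, eval (fun i => u (Sum.inl i)) G = 0) → eval x G = 0

/-- the leading form of a polynomial -/
noncomputable def leading {n : ℕ} (q : MvPolynomial (Fin n) ℂ) : MvPolynomial (Fin n) ℂ :=
  homogeneousComponent q.totalDegree q

/-- the linear space `L`, of codimension `r` and in no real hyperplane, lies at infinity on
`F_1 = ... = F_r = 0`, `g ≠ 0`: the leading forms of the `F_i` vanish on `L` and have independent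
gradients at some point of `L`, and that of `g` does not vanish on `L` -/
structure AtInfinity {n r : ℕ} (F : Fin r → MvPolynomial (Fin n) ℂ) (g : MvPolynomial (Fin n) ℂ)
    (L : Submodule ℂ (Fin n → ℂ)) : Prop where
  dim : Module.finrank ℂ L + r = n
  real : ∀ c : Fin n → ℝ, c ≠ 0 → ∃ v ∈ L, ∑ i, (c i : ℂ) * v i ≠ 0
  vanish : ∀ i, ∀ z ∈ L, eval z (leading (F i)) = 0
  gradients : ∃ z ∈ L, LinearIndependent ℂ fun i j => eval z (pderiv j (leading (F i)))
  off : ∃ z ∈ L, eval z (leading g) ≠ 0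

/-- the leading form of `F_b` is divisible by `x_{a(b)} - c_b x_{a'(b)}` and by
`x_{a(b)} - c'_b x_{a'(b)}`, `c_b ≠ c'_b` not real, and the quotients and the leading form of `g` do not
vanish on the linear spaces `x_{a(b)} = γ_b x_{a'(b)}`, `b = 1, ..., r`, with `γ_b = c_b` or
`γ_b = c'_b` -/
structure TwoFactors {n r : ℕ} (F : Fin r → MvPolynomial (Fin n) ℂ) (g : MvPolynomial (Fin n) ℂ)
    (a a' : Fin r → Fin n) (c c' : Fin r → ℂ) (q : Fin r → MvPolynomial (Fin n) ℂ) : Prop where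
  inj : Function.Injective a
  inj' : Function.Injective a'
  disjoint : ∀ b b', a b ≠ a' b'
  ne : ∀ b, c b ≠ c' b
  nonreal : ∀ b, (c b).im ≠ 0 ∧ (c' b).im ≠ 0
  factors : ∀ b, leading (F b) =
    (X (a b) - C (c b) * X (a' b)) * (X (a b) - C (c' b) * X (a' b)) * q b
  quotients : ∀ γ : Fin r → ℂ, (∀ b, γ b = c b ∨ γ b = c' b) →
    (∀ b, ∃ z : Fin n → ℂ, (∀ b', z (a b') = γ b' * z (a' b')) ∧ eval z (q b) ≠ 0) ∧
      ∃ z : Fin n → ℂ, (∀ b', z (a b') = γ b' * z (a' b')) ∧ eval z (leading g) ≠ 0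

/-- the translate `c V` -/
def Translate {n : ℕ} (c : Fin n ⊕ Fin n → ℂ) (V : Set (Fin n ⊕ Fin n → ℂ)) :
    Set (Fin n ⊕ Fin n → ℂ) :=
  {p | ∃ u ∈ V, p = Sum.elim (fun i => u (Sum.inl i) + c (Sum.inl i))
    (fun i => c (Sum.inr i) * u (Sum.inr i))}

/-- the exponential point `(z, e^z)` -/
noncomputable def ExpPoint {n : ℕ} (z : Fin n → ℂ) : Fin n ⊕ Fin n → ℂ :=
  Sum.elim z (fun i => Complex.exp (z i))

/-- `tr.deg_{K(c)} K(c)(z, e^z)` -/
noncomputable def trdegOver {n : ℕ} (K : Subfield ℂ) (c : Fin n ⊕ Fin n → ℂ) (z : Fin n → ℂ) :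
    Cardinal :=
  Algebra.trdeg (IntermediateField.adjoin K (Set.range c))
    (IntermediateField.adjoin (IntermediateField.adjoin K (Set.range c)) (Set.range (ExpPoint z)))

/-- every translate `c V` contains exponential points, also outside of any hypersurface `H = 0` which
does not contain `c V` -/
def DenseOnTranslates {n : ℕ} (V : Set (Fin n ⊕ Fin n → ℂ)) : Prop :=
  ∀ c : Fin n ⊕ Fin n → ℂ, (∀ i, c (Sum.inr i) ≠ 0) →
    ∀ H : MvPolynomial (Fin n ⊕ Fin n) ℂ, (∃ p ∈ Translate c V, eval p H ≠ 0) →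
    ∃ z : Fin n → ℂ, ExpPoint z ∈ Translate c V ∧ eval (ExpPoint z) H ≠ 0

/-- if `P` is defined over the countable field `K` then for almost all `c` there are exponential
points on `c V` which have transcendence degree `n` over `K(c)`, also outside of any hypersurface
`H = 0` which does not contain `c V` -/
def GenericOnTranslates {n : ℕ} (P : Ideal (MvPolynomial (Fin n ⊕ Fin n) ℂ))
    (V : Set (Fin n ⊕ Fin n → ℂ)) : Prop :=
  ∀ (K : Subfield ℂ) [Countable K], (∃ S : Set (MvPolynomial (Fin n ⊕ Fin n) K),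
      P = Ideal.span (MvPolynomial.map (algebraMap K ℂ) '' S)) →
    ∀ᵐ c : Fin n ⊕ Fin n → ℂ, (∀ i, c (Sum.inr i) ≠ 0) ∧
      ∀ H : MvPolynomial (Fin n ⊕ Fin n) ℂ, (∃ p ∈ Translate c V, eval p H ≠ 0) →
      ∃ z : Fin n → ℂ, ExpPoint z ∈ Translate c V ∧ eval (ExpPoint z) H ≠ 0 ∧
        trdegOver K c z = n

theorem generic_of_dense {n : ℕ} (P : Ideal (MvPolynomial (Fin n ⊕ Fin n) ℂ))
    (V : Set (Fin n ⊕ Fin n → ℂ)) (hV : IsVariety P V) (hd : ∀ J, J.card = n + 1 → ¬ Indep V J)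
    (hA : DenseOnTranslates V) : GenericOnTranslates P V := by
  intro K _ ⟨S, hS⟩
  have hgen := Pool.Agent.Y563.SE.generic_pts P V hV.prime hV.points hV.nonempty (by
    intro J hJ
    have h1 := hd J hJ
    unfold Indep at h1
    push Not at h1
    obtain ⟨f, h2, h3, h4⟩ := h1
    exact ⟨f, h4, h2, h3⟩) K S hS
  have hne : ∀ᵐ c : Fin n ⊕ Fin n → ℂ, ∀ i : Fin n, c (Sum.inr i) ≠ 0 := by
    rw [ae_all_iff]
    intro i
    have h1 : (volume : Measure (Fin n ⊕ Fin n → ℂ)) {c | c (Sum.inr i) = 0} = 0 := by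
      have h2 : {c : Fin n ⊕ Fin n → ℂ | c (Sum.inr i) = 0} =
          (LinearMap.ker (LinearMap.proj (R := ℝ) (φ := fun _ : Fin n ⊕ Fin n => ℂ)
            (Sum.inr i)) : Set (Fin n ⊕ Fin n → ℂ)) := by
        ext c
        simp
      rw [h2]
      refine Measure.addHaar_submodule _ _ fun h => ?_
      have h3 : (fun _ => (1 : ℂ) : Fin n ⊕ Fin n → ℂ) ∈
          LinearMap.ker (LinearMap.proj (R := ℝ) (φ := fun _ : Fin n ⊕ Fin n => ℂ)
            (Sum.inr i)) := by
        rw [h]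
        trivial
      simp at h3
    rw [ae_iff]
    simpa using h1
  filter_upwards [hgen, hne] with c hc hc'
  refine ⟨hc', fun H hH => ?_⟩
  obtain ⟨z, hz, hz'⟩ := hA c hc' H hH
  exact ⟨z, hz, hz', hc z hz⟩


theorem partA {n s r : ℕ} (hn : n = s + r) (P : Ideal (MvPolynomial (Fin n ⊕ Fin n) ℂ))
    (V : Set (Fin n ⊕ Fin n → ℂ)) (hV : IsVariety P V) (hs : BaseDim V s) (κ : Fin r → Fin n)
    (hκ : Function.Injective κ) (hind : IndepOverBase V κ) (F : Fin r → MvPolynomial (Fin n) ℂ)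
    (g : MvPolynomial (Fin n) ℂ) (hF : BaseContains V F g)
    (hfam : ∀ S : Fin n → Fin r → ℚ, (∀ b b', S (κ b) b' = if b = b' then 1 else 0) →
      ∃ L : Submodule ℂ (Fin n → ℂ), AtInfinity F g L ∧
        ∀ v : Fin r → ℂ, (fun j => ∑ b, ((S j b : ℚ) : ℂ) * v b) ∈ L → v = 0) :
    DenseOnTranslates V := by
  intro c hc H hH
  obtain ⟨x, ⟨u, hu, rfl⟩, hx⟩ := hH
  refine Pool.Agent.U573.LF.fam hn P V hV.prime hV.points hV.nonempty hs.1 hs.2 κ hκ hind F g hF
    (fun S hS => ?_) c hc H ⟨u, hu, hx⟩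
  obtain ⟨L, hL, hLS⟩ := hfam S hS
  exact ⟨L, by have := hL.dim; omega, hL.real, hLS, hL.vanish, hL.gradients, hL.off⟩

theorem partB {n s r : ℕ} (hn : n = s + r) (F : Fin r → MvPolynomial (Fin n) ℂ)
    (g : MvPolynomial (Fin n) ℂ) (a a' : Fin r → Fin n) (c c' : Fin r → ℂ)
    (q : Fin r → MvPolynomial (Fin n) ℂ) (h : TwoFactors F g a a' c c' q)
    (S : Fin n → Fin r → ℚ) (hS : ∀ b b', S (a b) b' = if b = b' then 1 else 0) :
    ∃ L : Submodule ℂ (Fin n → ℂ), AtInfinity F g L ∧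
      ∀ v : Fin r → ℂ, (fun j => ∑ b, ((S j b : ℚ) : ℂ) * v b) ∈ L → v = 0 := by
  obtain ⟨γ, hγ, hγS⟩ := Pool.Agent.U573.LF.exists_LG a a' c c' h.ne S hS
  have hq := h.quotients γ hγ
  obtain ⟨h1, h2⟩ := Pool.Agent.U573.LF.grad a a' h.inj h.inj' h.disjoint c c' h.ne
    (fun b => leading (F b)) q h.factors γ hγ hq.1
  refine ⟨Pool.Agent.U573.LF.LG a a' γ, ⟨?_, ?_, h1, h2, hq.2⟩, hγS⟩
  · rw [Pool.Agent.U573.LF.finrank_LG a a' h.inj h.disjoint hn γ, hn]
  · refine Pool.Agent.U573.LF.real_LG a a' h.inj h.inj' h.disjoint γ fun b => ?_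
    rcases hγ b with e | e
    · rw [e]
      exact (h.nonreal b).1
    · rw [e]
      exact (h.nonreal b).2

theorem twoFactors_conics {r : ℕ} (c c' α β : Fin r → ℂ) (hc : ∀ b, c b ≠ c' b)
    (him : ∀ b, (c b).im ≠ 0 ∧ (c' b).im ≠ 0) :
    TwoFactors (Pool.Agent.U573.LF.Fb c c' α β) (1 : MvPolynomial (Fin (r + r)) ℂ)
      (Fin.castAdd r) (Fin.natAdd r) c c' fun _ => 1 where
  inj := Fin.castAdd_injective _ _
  inj' := Fin.natAdd_injective _ _
  disjoint := fun b b' h => by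
    have := congrArg Fin.val h
    simp only [Fin.val_castAdd, Fin.val_natAdd] at this
    have := b.2
    omega
  ne := hc
  nonreal := him
  factors := fun b => by
    have h0 : ∀ e : ℂ, (X (Fin.castAdd r b) - C e * X (Fin.natAdd r b) :
        MvPolynomial (Fin (r + r)) ℂ).IsHomogeneous 1 := fun e => by
      refine (isHomogeneous_X _ _).sub ?_
      have := (isHomogeneous_C (Fin (r + r)) e).mul (isHomogeneous_X ℂ (Fin.natAdd r b))
      simpa using this
    have h1 : ∀ e : ℂ, (X (Fin.castAdd r b) - C e * X (Fin.natAdd r b) :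
        MvPolynomial (Fin (r + r)) ℂ) ≠ 0 := fun e h => by
      have h2 := congrArg (eval fun i => if i = Fin.castAdd r b then (1 : ℂ) else 0) h
      have h3 : Fin.natAdd r b ≠ Fin.castAdd r b := fun h => by
        have := congrArg Fin.val h
        simp only [Fin.val_castAdd, Fin.val_natAdd] at this
        have := b.2
        omega
      simp only [map_sub, map_mul, eval_X, eval_C, if_neg h3, if_true, mul_zero, sub_zero,
        map_zero] at h2
      exact one_ne_zero h2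
    have h2 : ((X (Fin.castAdd r b) - C (c b) * X (Fin.natAdd r b)) *
        (X (Fin.castAdd r b) - C (c' b) * X (Fin.natAdd r b)) :
        MvPolynomial (Fin (r + r)) ℂ).IsHomogeneous 2 := (h0 _).mul (h0 _)
    unfold leading Pool.Agent.U573.LF.Fb
    rw [Pool.Agent.U573.LF.leading_add two_pos _ h2 (mul_ne_zero (h1 _) (h1 _)), mul_one]
  quotients := fun γ _ => ⟨fun b => ⟨0, fun b' => by simp, by simp⟩, ⟨0, fun b' => by simp, by
    have : leading (1 : MvPolynomial (Fin (r + r)) ℂ) = 1 := by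
      unfold leading
      have h1 : (1 : MvPolynomial (Fin (r + r)) ℂ) = C 1 := by simp
      rw [h1, totalDegree_C, homogeneousComponent_zero, coeff_zero_C]
    rw [this]
    simp⟩⟩

theorem partC {r : ℕ} (c c' α β : Fin r → ℂ) (hc : ∀ b, c b ≠ c' b)
    (him : ∀ b, (c b).im ≠ 0 ∧ (c' b).im ≠ 0) (hα : ∀ b, α b ≠ 0) (hβ : ∀ b, β b ≠ 0)
    (A B : Fin r → MvPolynomial (Fin r ⊕ Fin r) ℂ) (H : MvPolynomial (Fin r ⊕ Fin r) ℂ)
    (hA : ∀ b, A b ≠ 0) (hB : ∀ b, B b ≠ 0) (hH : H ≠ 0) :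
    ∃ t E : Fin r → ℂ, (∀ b, t b ≠ 0 ∧
        E b = Complex.exp (c b * α b * t b + c' b * β b / t b) ∧
        eval (Sum.elim t E) (B b) * Complex.exp (α b * t b + β b / t b) =
          eval (Sum.elim t E) (A b)) ∧ eval (Sum.elim t E) H ≠ 0 := by
  have h0 : ∀ b, c b ≠ 0 := fun b h => (him b).1 (by rw [h]; rfl)
  have h0' : ∀ b, c' b ≠ 0 := fun b h => (him b).2 (by rw [h]; rfl)
  have hV : IsVariety (Pool.Agent.U573.LF.PP c c' α β A B) (Pool.Agent.U573.LF.VV c c' α β A B) :=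
    ⟨Pool.Agent.U573.LF.prime_PP c c' α β A B hA hB, rfl,
      Pool.Agent.U573.LF.nonempty_VV c c' α β A B hA hB⟩
  have hs : BaseDim (Pool.Agent.U573.LF.VV c c' α β A B) r :=
    ⟨Pool.Agent.U573.LF.base_dim1 c c' α β A B hα hβ h0 h0' hA hB,
      Pool.Agent.U573.LF.base_dim2 c c' α β A B hc hα hβ⟩
  have hD := partA rfl _ _ hV hs (Fin.castAdd r) (Fin.castAdd_injective _ _)
    (Pool.Agent.U573.LF.indep_base c c' α β A B) (Pool.Agent.U573.LF.Fb c c' α β) 1
    (fun x hx _ G hG => Pool.Agent.U573.LF.base_contains c c' α β A B hc hα hβ hA hB x hx G hG)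
    (partB rfl _ _ _ _ c c' _ (twoFactors_conics c c' α β hc him))
  obtain ⟨p, hp, hpH⟩ := Pool.Agent.U573.LF.exists_ne A B H hH hA hB
  have hT : ∀ u : Fin (r + r) ⊕ Fin (r + r) → ℂ,
      u = Sum.elim (fun i => u (Sum.inl i) + (Sum.elim (fun _ => 0) (fun _ => 1) :
        Fin (r + r) ⊕ Fin (r + r) → ℂ) (Sum.inl i))
      (fun i => (Sum.elim (fun _ => 0) (fun _ => 1) :
        Fin (r + r) ⊕ Fin (r + r) → ℂ) (Sum.inr i) * u (Sum.inr i)) := by
    intro u
    funext i
    rcases i with i | i <;> simp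
  have hmem : Pool.Agent.U573.LF.pt c c' α β A B p ∈
      Translate (Sum.elim (fun _ => 0) (fun _ => 1)) (Pool.Agent.U573.LF.VV c c' α β A B) :=
    ⟨_, Pool.Agent.U573.LF.pt_mem c c' α β A B hp, hT _⟩
  have hne : eval (Pool.Agent.U573.LF.pt c c' α β A B p)
      (aeval (Pool.Agent.U573.LF.tau c c' α) H) ≠ 0 := by
    rw [Pool.Agent.U573.LF.eval_tau_pt c c' α β A B hc hα H p
      (Pool.Agent.U573.LF.DD_ne A B hp).2.1]
    exact hpH
  have h01 : ∀ i : Fin (r + r), (Sum.elim (fun _ => 0) (fun _ => 1) :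
      Fin (r + r) ⊕ Fin (r + r) → ℂ) (Sum.inr i) ≠ 0 := by
    intro i
    rw [Sum.elim_inr]
    exact one_ne_zero
  obtain ⟨x, hxT, hx⟩ := hD _ h01 _ ⟨_, hmem, hne⟩
  obtain ⟨u, hu, hxu⟩ := hxT
  have hxu' : ExpPoint x = u := by
    rw [hxu]
    exact (hT u).symm
  rw [← hxu'] at hu
  have hF : ∀ b, eval x (Pool.Agent.U573.LF.Fb c c' α β b) = 0 := by
    intro b
    have h1 := Pool.Agent.U573.LF.Fb_V c c' α β A B hc hα b (ExpPoint x) hu
    have h2 : (fun i => ExpPoint x (Sum.inl i)) = x := by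
      funext i
      rfl
    rw [h2] at h1
    exact h1
  obtain ⟨t, ht0, ht1, ht⟩ := Pool.Agent.U573.LF.of_Fb c c' α β hc hα hβ x hF 0
  have hz : ∀ b, x (Fin.castAdd r b) = c b * α b * t b + c' b * β b / t b := fun b => by
    rw [ht, Pool.Agent.U573.LF.bs_left, div_eq_mul_inv, Sum.elim_inl]
  have hw : ∀ b, x (Fin.natAdd r b) = α b * t b + β b / t b := fun b => by
    rw [ht, Pool.Agent.U573.LF.bs_right, div_eq_mul_inv, Sum.elim_inl]
  have hτ : ∀ f : MvPolynomial (Fin r ⊕ Fin r) ℂ,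
      eval (ExpPoint x) (aeval (Pool.Agent.U573.LF.tau c c' α) f) =
        eval (Sum.elim t fun b => Complex.exp (c b * α b * t b + c' b * β b / t b)) f := by
    intro f
    rw [Pool.Agent.U573.LF.eval_tau]
    congr 2
    funext i
    rcases i with b | b
    · exact (ht1 b).symm
    · show Complex.exp (x (Fin.castAdd r b)) = _
      rw [hz]
      rfl
  refine ⟨t, fun b => Complex.exp (c b * α b * t b + c' b * β b / t b),
    fun b => ⟨ht0 b, rfl, ?_⟩, ?_⟩
  · have h1 := Pool.Agent.U573.LF.relation c c' α β A B hc hα b _ hu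
    rw [hτ, hτ] at h1
    rw [← h1, ← hw]
    rfl
  · rw [← hτ]
    exact hx

/-- **(A)** families of linear spaces at infinity; **(B)** leading forms with two linear factors;
**(C)** systems of `r` equations with `α_b t_b + β_b / t_b` in the exponents -/
theorem result :
    (∀ (n s r : ℕ), n = s + r → ∀ (P : Ideal (MvPolynomial (Fin n ⊕ Fin n) ℂ))
      (V : Set (Fin n ⊕ Fin n → ℂ)), IsVariety P V → BaseDim V s → ∀ κ : Fin r → Fin n,
      Function.Injective κ → IndepOverBase V κ → ∀ (F : Fin r → MvPolynomial (Fin n) ℂ)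
      (g : MvPolynomial (Fin n) ℂ), BaseContains V F g →
      (∀ S : Fin n → Fin r → ℚ, (∀ b b', S (κ b) b' = if b = b' then 1 else 0) →
        ∃ L : Submodule ℂ (Fin n → ℂ), AtInfinity F g L ∧
          ∀ v : Fin r → ℂ, (fun j => ∑ b, ((S j b : ℚ) : ℂ) * v b) ∈ L → v = 0) →
      DenseOnTranslates V ∧ (HasDim V n → GenericOnTranslates P V)) ∧
    (∀ (n s r : ℕ), n = s + r → ∀ (P : Ideal (MvPolynomial (Fin n ⊕ Fin n) ℂ))
      (V : Set (Fin n ⊕ Fin n → ℂ)), IsVariety P V → BaseDim V s →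
      ∀ (F : Fin r → MvPolynomial (Fin n) ℂ) (g : MvPolynomial (Fin n) ℂ) (a a' : Fin r → Fin n)
      (c c' : Fin r → ℂ) (q : Fin r → MvPolynomial (Fin n) ℂ), TwoFactors F g a a' c c' q →
      BaseContains V F g → IndepOverBase V a →
      DenseOnTranslates V ∧ (HasDim V n → GenericOnTranslates P V)) ∧
    (∀ (r : ℕ) (c c' α β : Fin r → ℂ), (∀ b, c b ≠ c' b) →
      (∀ b, (c b).im ≠ 0 ∧ (c' b).im ≠ 0) → (∀ b, α b ≠ 0) → (∀ b, β b ≠ 0) →
      ∀ (A B : Fin r → MvPolynomial (Fin r ⊕ Fin r) ℂ) (H : MvPolynomial (Fin r ⊕ Fin r) ℂ),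
      (∀ b, A b ≠ 0) → (∀ b, B b ≠ 0) → H ≠ 0 →
      ∃ t E : Fin r → ℂ, (∀ b, t b ≠ 0 ∧
        E b = Complex.exp (c b * α b * t b + c' b * β b / t b) ∧
        eval (Sum.elim t E) (B b) * Complex.exp (α b * t b + β b / t b) =
          eval (Sum.elim t E) (A b)) ∧ eval (Sum.elim t E) H ≠ 0) := by
  refine ⟨?_, ?_, ?_⟩
  · intro n s r hn P V hV hs κ hκ hind F g hF hfam
    have h1 := partA hn P V hV hs κ hκ hind F g hF hfam
    exact ⟨h1, fun h => generic_of_dense P V hV h.2 h1⟩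
  · intro n s r hn P V hV hs F g a a' c c' q h hF hind
    have h1 := partA hn P V hV hs a h.inj hind F g hF (partB hn F g a a' c c' q h)
    exact ⟨h1, fun h => generic_of_dense P V hV h.2 h1⟩
  · intro r c c' α β hc him hα hβ A B H hA hB hH
    exact partC c c' α β hc him hα hβ A B H hA hB hH

end Pool.Agent.Results.MP_209724_lc.ProductsOfCurves
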