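import Pool.Agent.U405.RS.G5
import Pool.Agent.U951.TR.MatQ
import Pool.Agent.Results.MP_209724_lc.RandomCombinations

/-!
# The axiom (SC) for the complex exponential function: combinations with coefficients from thin sets, bounded degree

For every `j ≤ n` let `x_{j,1}, …, x_{j,k}` be arbitrary complex numbers which are linearly independent over `ℚ`, and
let `z_j = ζ_j + a_{j,1} x_{j,1} + ⋯ + a_{j,k} x_{j,k}` with integers `a_{j,i}` and an arbitrary complex number `ζ_j`, for
instance `0`. Schanuel's conjecture, the axiom (SC), says that the `2 n` numbers `z_1, …, z_n, e^{z_1}, …, e^{z_n}` have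
transcendence degree at least `n` if the `z_j` are linearly independent.

For every degree bound `D` there are `k₀` and `δ > 0`, which depend only on `n`, `D` and `l`, such that for all `k ≥ k₀`
and all `x` one can choose for every `j` one of the two numbers `z_j`, `e^{z_j}` (the choice depends on `x` only) with
the following property. Let `F_{j,i}` be positive multiplicative functions of at most polynomial growth which for each
`a ≥ 1` are injective at the powers `q ^ a` of the large primes and at most `M q ^ a` there; for example the identity,
Euler's function or the sum of the divisors. Let `τ > 1 - δ / n`, `0 < τ ≤ 1`, and let each of the `n k` sets `S_{j,i}` be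
a set of shifted primes `q + b`, `q ≤ X`, or an interval `(u, u + h]`, `u ≤ X`, `X ^ τ ≤ h ≤ X`. For all `m` in the
product of the `S_{j,i}` but a proportion of at most `(log X) ^ (-U)` (any `U`), and for ALL matrices `a` with
`a_{j,i} = ± F_{j,i}(m_{j,i})`: if `s_1, …, s_l` satisfy no nonzero polynomial relation with algebraic coefficients of
degree at most `D` in each of them, then the same is true of `s_1, …, s_l` together with the `n` chosen numbers. This is
uniform in `x`, `s` and `ζ`. For example, the coefficients may be prime numbers, or numbers `φ(q - 1)` with `q` prime, or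
may be in short intervals.

Proof. The starting result bounds the number of the exceptional matrices with entries up to `X` by `C X ^ (n k - δ k)`.
The tuples `F_{j,i}(m_{j,i})` have density zero or are taken with large and uneven multiplicities, so that the size of
the exceptional set says nothing about them; they are treated by the tool `Pool.Agent.U405.RS` of helper405 (a thin set
has few multiples of each `n ≤ x^δ`, Rankin's method, fibres over slabs).
-/

set_option autoImplicit false

namespace Pool.Agent.Results.MP_209724_lc.ThinTuples

open Pool.Agent.U405.RS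
open Pool.Agent.U951.TR.Mat (Abs count_rat)
open Pool.Agent.Results.MP_209724_lc.RandomCombinations (NoRelation comb)

/-- The numbers `x_{j,i}`, for every `j` linearly independent over `ℚ`, the numbers `s_i` without polynomial relations
with algebraic coefficients of degree at most `D` in each of them, and the numbers `ζ_j`. -/
structure Data (l n k D : ℕ) where
  /-- the numbers `x_{j,i}` -/
  x : Fin n → Fin k → ℂ
  indep : ∀ j, LinearIndependent ℚ (x j)
  /-- the numbers `s_i` -/
  s : Fin l → ℂ
  noRelation : NoRelation D s
  /-- the numbers `ζ_j` -/
  ζ : Fin n → ℂ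

/-- For ALL `n × k` matrices `a` of integers with the absolute values `w`: the numbers `s_1, …, s_l` and, for `j` from `1`
to `n`, the number `z_j = ζ_j + ∑ a_{j,i} x_{j,i}` (if `c x j` is true) or `e^{z_j}` (if it is false) satisfy no nonzero
polynomial relation with algebraic coefficients of degree at most `D` in each of them. -/
def Independent {l n k D : ℕ} (c : (Fin n → Fin k → ℂ) → Fin n → Bool) (v : Data l n k D) (w : Fin (n * k) → ℕ) : Prop :=
  ∀ a : Fin n → Fin k → ℤ, Abs w a → NoRelation D (Sum.elim v.s (fun j => if c v.x j = true then
    comb v.ζ v.x (fun j i => (a j i : ℚ)) j else Complex.exp (comb v.ζ v.x (fun j i => (a j i : ℚ)) j)))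

/-- **Theorem.** For all `l`, `n ≥ 1` and `D` there are `k₀` and `δ > 0` such that for all `k ≥ k₀` there is a choice `c`,
depending only on the numbers `x_{j,i}`, such that for all families `F` of `n k` functions in the class `PM` and all `U`, in
the sense of `ThinAll (δ k) F U` (with a saving of `(log X)^U`, for almost all `m` in all products of `n k` sets, each
one the set of the shifted primes `q + b_i`, `q ≤ X`, or an interval `(u, u + h]`, `u ≤ X`, `X^τ ≤ h ≤ X`, whenever
`0 < τ ≤ 1`, `n k τ > n k - δ k`), uniformly in `x`, `s` and `ζ` (`Data`): all `F_i(m_i)` are at least `2` and the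
property `Independent` holds for all the combinations with the coefficients `± F_i(m_i)`. Euler's function, the sum of
the divisors and the identity are in the class. -/
theorem result :
    (∀ l n D : ℕ, 1 ≤ n → ∃ (k₀ : ℕ) (δ : ℝ), 0 < δ ∧ ∀ k ≥ k₀, ∃ c : (Fin n → Fin k → ℂ) → Fin n → Bool,
      ∀ F : Fin (n * k) → ℕ → ℕ, (∀ i, PM (F i)) → ∀ U : ℕ,
        ThinAll (δ * k) F U (fun (v : Data l n k D) w => (∀ i, 2 ≤ w i) ∧ Independent c v w)) ∧
    (PM Nat.totient ∧ PM (fun m => ∑ d ∈ m.divisors, d) ∧ PM (fun m => m)) := by
  classical
  refine ⟨fun l n D hn => ?_, examplesT⟩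
  obtain ⟨k₀, C, δ, hδ, h⟩ := RandomCombinations.result l n D
  refine ⟨max k₀ 1, δ, hδ, fun k hk => ?_⟩
  have hk0 : k₀ ≤ k := (le_max_left _ _).trans hk
  have hk1 : 1 ≤ k := (le_max_right _ _).trans hk
  have hkR : (0 : ℝ) < k := by exact_mod_cast hk1
  choose! c hc using h k hk0
  refine ⟨c, fun F hF U => ?_⟩
  refine thinAll_two (Nat.mul_pos hn hk1) hF (mul_pos hδ hkR) ((C * 3 ^ (n * k) : ℕ) : ℝ) _ (fun v X hX => ?_) U
  have h1 := hc v.x v.indep
  have h2 := count_rat (n := n) (k := k) (C := C) (E := ((n * k : ℕ) : ℝ) - δ * k) (by
      have := mul_pos hδ hkR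
      linarith)
    (G := fun a => NoRelation D (Sum.elim v.s (fun j => if c v.x j = true then
      comb v.ζ v.x a j else Complex.exp (comb v.ζ v.x a j)))) (fun A hA => by
        have h3 := h1 A hA v.s v.noRelation v.ζ
        rw [Nat.cast_mul]
        convert h3) X hX
  exact h2

end Pool.Agent.Results.MP_209724_lc.ThinTuples
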